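import Pool.Agent.H16.EnergyData

set_option autoImplicit false

namespace Pool.Agent.H16.Energy

open Matrix

theorem adjB_symm (par : List ℕ) (i j : Fin 26) : adjB par i j = adjB par j i := by
  simp only [adjB]
  rw [Bool.or_comm]

def GT : SimpleGraph (Fin 26) :=
  SimpleGraph.mk' ⟨adjB parT, fun i j => adjB_symm _ i j, by decide +kernel⟩

def GS : SimpleGraph (Fin 26) :=
  SimpleGraph.mk' ⟨adjB parS, fun i j => adjB_symm _ i j, by decide +kernel⟩

instance : DecidableRel GT.Adj := fun i j => inferInstanceAs (Decidable (adjB parT i j = true))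
instance : DecidableRel GS.Adj := fun i j => inferInstanceAs (Decidable (adjB parS i j = true))

theorem GT_adj (i j : Fin 26) : GT.Adj i j ↔ adjB parT i j = true := Iff.rfl
theorem GS_adj (i j : Fin 26) : GS.Adj i j ↔ adjB parS i j = true := Iff.rfl

theorem parT_spec : ∀ w : Fin 26, w.val ≠ 0 → ∃ u : Fin 26, u.val < w.val ∧ adjB parT u w = true := by
  decide +kernel

theorem parS_spec : ∀ w : Fin 26, w.val ≠ 0 → ∃ u : Fin 26, u.val < w.val ∧ adjB parS u w = true := by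
  decide +kernel

theorem conn (G : SimpleGraph (Fin 26))
    (h : ∀ w : Fin 26, w.val ≠ 0 → ∃ u : Fin 26, u.val < w.val ∧ G.Adj u w) : G.Connected := by
  rw [SimpleGraph.connected_iff_exists_forall_reachable]
  refine ⟨0, ?_⟩
  have : ∀ n : ℕ, ∀ w : Fin 26, w.val = n → G.Reachable 0 w := by
    intro n
    induction n using Nat.strong_induction_on with
    | _ n ih =>
      intro w hw
      by_cases h0 : w.val = 0
      · have : w = 0 := Fin.ext h0
        rw [this]
      · obtain ⟨u, hu, huw⟩ := h w h0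
        exact (ih u.val (by omega) u rfl).trans huw.reachable
  exact fun w => this _ w rfl

theorem GT_edges : GT.edgeFinset.card = 25 := by decide +kernel
theorem GS_edges : GS.edgeFinset.card = 25 := by decide +kernel

theorem GT_tree : GT.IsTree := by
  rw [SimpleGraph.isTree_iff_connected_and_card]
  refine ⟨conn GT parT_spec, ?_⟩
  rw [Nat.card_eq_fintype_card, ← SimpleGraph.edgeFinset_card, GT_edges, Nat.card_eq_fintype_card,
    Fintype.card_fin]

theorem GS_tree : GS.IsTree := by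
  rw [SimpleGraph.isTree_iff_connected_and_card]
  refine ⟨conn GS parS_spec, ?_⟩
  rw [Nat.card_eq_fintype_card, ← SimpleGraph.edgeFinset_card, GS_edges, Nat.card_eq_fintype_card,
    Fintype.card_fin]

theorem GT_mat : GT.adjMatrix ℝ = (Int.castRingHom ℝ).mapMatrix (mat parT) := by
  ext i j
  rw [SimpleGraph.adjMatrix_apply, RingHom.mapMatrix_apply, Matrix.map_apply, mat]
  by_cases h : adjB parT i j = true
  · rw [if_pos h, if_pos ((GT_adj i j).2 h)]; simp
  · rw [if_neg h, if_neg (fun h' => h ((GT_adj i j).1 h'))]; simp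

theorem GS_mat : GS.adjMatrix ℝ = (Int.castRingHom ℝ).mapMatrix (mat parS) := by
  ext i j
  rw [SimpleGraph.adjMatrix_apply, RingHom.mapMatrix_apply, Matrix.map_apply, mat]
  by_cases h : adjB parS i j = true
  · rw [if_pos h, if_pos ((GS_adj i j).2 h)]; simp
  · rw [if_neg h, if_neg (fun h' => h ((GS_adj i j).1 h'))]; simp

theorem T2 : mat parT ^ 2 = ofTab tT2 := by
  rw [pow_two]; ext i j; exact eq_of_beq (T_sq i j)
theorem T4 : mat parT ^ 4 = ofTab tT4 := by
  rw [show 4 = 2 * 2 by norm_num, pow_mul, T2, pow_two]; ext i j; exact eq_of_beq (T_four i j)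
theorem T6 : mat parT ^ 6 = ofTab tT4 * ofTab tT2 := by
  rw [show 6 = 4 + 2 by norm_num, pow_add, T4, T2]
theorem S2 : mat parS ^ 2 = ofTab tS2 := by
  rw [pow_two]; ext i j; exact eq_of_beq (S_sq i j)
theorem S4 : mat parS ^ 4 = ofTab tS4 := by
  rw [show 4 = 2 * 2 by norm_num, pow_mul, S2, pow_two]; ext i j; exact eq_of_beq (S_four i j)
theorem S6 : mat parS ^ 6 = ofTab tS4 * ofTab tS2 := by
  rw [show 6 = 4 + 2 by norm_num, pow_add, S4, S2]
theorem S8 : mat parS ^ 8 = ofTab tS4 * ofTab tS4 := by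
  rw [show 8 = 4 + 4 by norm_num, pow_add, S4]

theorem trace_cast (M : Matrix (Fin 26) (Fin 26) ℤ) (k : ℕ) :
    (((Int.castRingHom ℝ).mapMatrix M) ^ k).trace = (((M ^ k).trace : ℤ) : ℝ) := by
  rw [← map_pow]
  simp [Matrix.trace]

theorem trace_pow (A : Matrix (Fin 26) (Fin 26) ℝ) (hA : A.IsHermitian) (k : ℕ) :
    (A ^ k).trace = ∑ i, hA.eigenvalues i ^ k := by
  have h : (A ^ k).trace = ((Unitary.conjStarAlgAut ℝ _ hA.eigenvectorUnitary
      (diagonal (RCLike.ofReal ∘ hA.eigenvalues))) ^ k).trace :=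
    congrArg (fun M => (M ^ k).trace) hA.spectral_theorem
  rw [h, ← map_pow, Matrix.diagonal_pow, Unitary.conjStarAlgAut_apply, Matrix.trace_mul_comm,
    ← mul_assoc]
  simp [Matrix.trace_diagonal]

theorem sum_abs (A : Matrix (Fin 26) (Fin 26) ℝ) (hA : A.IsHermitian) :
    (A.charpoly.roots.map (fun x : ℝ => |x|)).sum = ∑ i, |hA.eigenvalues i| := by
  rw [hA.roots_charpoly_eq_eigenvalues, Multiset.map_map]
  rfl

theorem prod_abs (A : Matrix (Fin 26) (Fin 26) ℝ) (hA : A.IsHermitian) :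
    (A.charpoly.roots.map (fun x : ℝ => |x|)).prod = |A.det| := by
  rw [hA.roots_charpoly_eq_eigenvalues, Multiset.map_map, hA.det_eq_prod_eigenvalues,
    Finset.abs_prod]
  rfl

theorem GT_tr : ((GT.adjMatrix ℝ) ^ 2).trace = 50 ∧ ((GT.adjMatrix ℝ) ^ 4).trace = 410 ∧
    ((GT.adjMatrix ℝ) ^ 6).trace = 5426 := by
  rw [GT_mat, trace_cast, trace_cast, trace_cast, T2, T4, T6, T_tr.1, T_tr.2.1, T_tr.2.2]
  norm_num

theorem GS_tr : ((GS.adjMatrix ℝ) ^ 2).trace = 50 ∧ ((GS.adjMatrix ℝ) ^ 4).trace = 150 ∧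
    ((GS.adjMatrix ℝ) ^ 6).trace = 500 ∧ ((GS.adjMatrix ℝ) ^ 8).trace = 1750 := by
  rw [GS_mat, trace_cast, trace_cast, trace_cast, trace_cast, S2, S4, S6, S8, S_tr.1, S_tr.2.1,
    S_tr.2.2.1, S_tr.2.2.2]
  norm_num

theorem T_energy : ((GT.adjMatrix ℝ).charpoly.roots.map (fun x : ℝ => |x|)).sum ≤ 764 / 25 := by
  have hA : (GT.adjMatrix ℝ).IsHermitian := GT.isSymm_adjMatrix
  rw [sum_abs _ hA]
  have hP : ∀ t : ℝ, |t| ≤ 58 / 125 + 573 / 1000 * t ^ 2 - 19 / 500 * t ^ 4 + 1 / 1000 * t ^ 6 := by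
    intro t
    set u := |t| with hu
    have hu0 : 0 ≤ u := abs_nonneg t
    have e2 : t ^ 2 = u ^ 2 := (sq_abs t).symm
    have e4 : t ^ 4 = u ^ 4 := by
      rw [show 4 = 2 * 2 by norm_num, pow_mul, pow_mul, e2]
    have e6 : t ^ 6 = u ^ 6 := by
      rw [show 6 = 2 * 3 by norm_num, pow_mul, pow_mul, e2]
    rw [e2, e4, e6]
    have : 0 ≤ (u - 1) ^ 2 * (u - 4) ^ 2 * (29 / 1000 + u / 100 + u ^ 2 / 1000) := by positivity
    nlinarith [this]
  have h2 := trace_pow _ hA 2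
  have h4 := trace_pow _ hA 4
  have h6 := trace_pow _ hA 6
  rw [GT_tr.1] at h2
  rw [GT_tr.2.1] at h4
  rw [GT_tr.2.2] at h6
  have hs : ∑ i, |hA.eigenvalues i| ≤ ∑ i, (58 / 125 + 573 / 1000 * hA.eigenvalues i ^ 2 -
      19 / 500 * hA.eigenvalues i ^ 4 + 1 / 1000 * hA.eigenvalues i ^ 6) :=
    Finset.sum_le_sum fun i _ => hP _
  refine hs.trans ?_
  rw [Finset.sum_add_distrib, Finset.sum_sub_distrib, Finset.sum_add_distrib, ← Finset.mul_sum,
    ← Finset.mul_sum, ← Finset.mul_sum, ← h2, ← h4, ← h6]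
  simp only [Finset.sum_const, Finset.card_univ, Fintype.card_fin, nsmul_eq_mul]
  norm_num

theorem S_energy : (764 / 25 : ℝ) < ((GS.adjMatrix ℝ).charpoly.roots.map (fun x : ℝ => |x|)).sum := by
  have hA : (GS.adjMatrix ℝ).IsHermitian := GS.isSymm_adjMatrix
  rw [sum_abs _ hA]
  have hP : ∀ t : ℝ, 63803 / 43940 * t ^ 2 - 2673089 / 4394000 * t ^ 4 + 38802 / 274625 * t ^ 6 -
      3344 / 274625 * t ^ 8 ≤ |t| := by
    intro t
    set u := |t| with hu
    have hu0 : 0 ≤ u := abs_nonneg t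
    have e2 : t ^ 2 = u ^ 2 := (sq_abs t).symm
    have e4 : t ^ 4 = u ^ 4 := by
      rw [show 4 = 2 * 2 by norm_num, pow_mul, pow_mul, e2]
    have e6 : t ^ 6 = u ^ 6 := by
      rw [show 6 = 2 * 3 by norm_num, pow_mul, pow_mul, e2]
    have e8 : t ^ 8 = u ^ 8 := by
      rw [show 8 = 2 * 4 by norm_num, pow_mul, pow_mul, e2]
    rw [e2, e4, e6, e8]
    have h : 0 ≤ u * ((u - 5 / 4) ^ 2 * (u - 2) ^ 2 * (4 / 25 + 50441 / 274625 * u +
      1672 / 21125 * u ^ 2 + 3344 / 274625 * u ^ 3)) := by positivity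
    have e : u - (63803 / 43940 * u ^ 2 - 2673089 / 4394000 * u ^ 4 + 38802 / 274625 * u ^ 6 -
      3344 / 274625 * u ^ 8) = u * ((u - 5 / 4) ^ 2 * (u - 2) ^ 2 * (4 / 25 + 50441 / 274625 * u +
      1672 / 21125 * u ^ 2 + 3344 / 274625 * u ^ 3)) := by ring
    linarith
  have h2 := trace_pow _ hA 2
  have h4 := trace_pow _ hA 4
  have h6 := trace_pow _ hA 6
  have h8 := trace_pow _ hA 8
  rw [GS_tr.1] at h2
  rw [GS_tr.2.1] at h4
  rw [GS_tr.2.2.1] at h6
  rw [GS_tr.2.2.2] at h8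
  have hs : ∑ i, (63803 / 43940 * hA.eigenvalues i ^ 2 - 2673089 / 4394000 * hA.eigenvalues i ^ 4 +
      38802 / 274625 * hA.eigenvalues i ^ 6 - 3344 / 274625 * hA.eigenvalues i ^ 8) ≤
      ∑ i, |hA.eigenvalues i| := Finset.sum_le_sum fun i _ => hP _
  refine lt_of_lt_of_le ?_ hs
  rw [Finset.sum_sub_distrib, Finset.sum_add_distrib, Finset.sum_sub_distrib, ← Finset.mul_sum,
    ← Finset.mul_sum, ← Finset.mul_sum, ← Finset.mul_sum, ← h2, ← h4, ← h6, ← h8]
  norm_num

theorem T_prod : ((GT.adjMatrix ℝ).charpoly.roots.map (fun x : ℝ => |x|)).prod = 1 := by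
  have hA : (GT.adjMatrix ℝ).IsHermitian := GT.isSymm_adjMatrix
  rw [prod_abs _ hA, GT_mat, ← RingHom.map_det]
  have h : mat parT * ofTab tTinv = 1 := by
    ext i j
    rw [T_inv, Matrix.one_apply]
  have h2 : (mat parT).det * (ofTab tTinv).det = 1 := by
    rw [← Matrix.det_mul, h, Matrix.det_one]
  rcases Int.eq_one_or_neg_one_of_mul_eq_one h2 with h3 | h3
  · rw [h3]; simp
  · rw [h3]; simp

theorem S_ker : ∀ i : Fin 26, ∑ j : Fin 26, mat parS i j *
    (if j.val = 24 then 1 else if j.val = 25 then -1 else 0) = 0 := by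
  decide +kernel

theorem S_prod : ((GS.adjMatrix ℝ).charpoly.roots.map (fun x : ℝ => |x|)).prod = 0 := by
  have hA : (GS.adjMatrix ℝ).IsHermitian := GS.isSymm_adjMatrix
  rw [prod_abs _ hA, GS_mat, ← RingHom.map_det]
  have h : (mat parS).det = 0 := by
    rw [← Matrix.exists_mulVec_eq_zero_iff]
    refine ⟨fun j : Fin 26 => if j.val = 24 then 1 else if j.val = 25 then -1 else 0, ?_, ?_⟩
    · intro h
      have := congrFun h 24
      simp at this
    · ext i
      exact S_ker i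
  rw [h]
  simp

end Pool.Agent.H16.Energy
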