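import Mathlib
set_option autoImplicit false
namespace Pool.Agent.H16.Markov3
abbrev Tab := Fin 6 → Fin 6 → Fin 6 → ℕ
def Same (u v : Tab) : Prop :=
  (∀ i j, ∑ k, u i j k = ∑ k, v i j k) ∧ (∀ i k, ∑ j, u i j k = ∑ j, v i j k) ∧
  (∀ j k, ∑ i, u i j k = ∑ i, v i j k)
def Xs : Fin 6 → Fin 6 → ℕ := ![![0, 1, 2, 3, 9, 9], ![1, 0, 9, 9, 4, 5], ![2, 9, 5, 9, 9, 1], ![9, 3, 9, 4, 0, 9], ![4, 9, 0, 5, 9, 9], ![9, 5, 9, 1, 9, 9]]
def Ys : Fin 6 → Fin 6 → ℕ := ![![1, 0, 2, 3, 9, 9], ![0, 1, 9, 9, 4, 5], ![2, 9, 5, 9, 9, 1], ![9, 3, 9, 4, 0, 9], ![4, 9, 0, 5, 9, 9], ![9, 5, 9, 1, 9, 9]]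
def Zs : Fin 6 → Fin 6 → ℕ := ![![2, 3, 0, 1, 9, 9], ![4, 5, 9, 9, 0, 1], ![1, 9, 2, 9, 9, 5], ![9, 0, 9, 3, 4, 9], ![0, 9, 5, 4, 9, 9], ![9, 1, 9, 5, 9, 9]]
def X : Tab := fun i j k => if Xs i j = k.val then 1 else 0
def Y : Tab := fun i j k => if Ys i j = k.val then 1 else 0
def Z : Tab := fun i j k => if Zs i j = k.val then 1 else 0

theorem offT : ∀ i j k, ((∑ k, X i j k) = 0 ∨ (∑ j, X i j k) = 0 ∨ (∑ i, X i j k) = 0) → X i j k = 0 ∧ Y i j k = 0 ∧ Z i j k = 0 := by decide +kernel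
theorem onT : ∀ i j k : Fin 6, ¬ ((∑ k, X i j k) = 0 ∨ (∑ j, X i j k) = 0 ∨ (∑ i, X i j k) = 0) → (i, j, k) ∈ ([(0,0,0), (0,0,1), (0,0,2), (0,1,0), (0,1,1), (0,1,3), (0,2,0), (0,2,2), (0,3,1), (0,3,3), (1,0,0), (1,0,1), (1,0,4), (1,1,0), (1,1,1), (1,1,5), (1,4,0), (1,4,4), (1,5,1), (1,5,5), (2,0,1), (2,0,2), (2,2,2), (2,2,5), (2,5,1), (2,5,5), (3,1,0), (3,1,3), (3,3,3), (3,3,4), (3,4,0), (3,4,4), (4,0,0), (4,0,4), (4,2,0), (4,2,5), (4,3,4), (4,3,5), (5,1,1), (5,1,5), (5,3,1), (5,3,5)] : List (Fin 6 × Fin 6 × Fin 6)) := by decide +kernel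
set_option maxHeartbeats 4000000 in
theorem cls (w : Tab) (h : Same w X) : ∃ a b c : ℕ, a + b + c = 1 ∧ ∀ i j k, w i j k = a * X i j k + b * Y i j k + c * Z i j k := by
  obtain ⟨h1, h2, h3⟩ := h
  have key : ∀ i j k, ((∑ k, X i j k) = 0 ∨ (∑ j, X i j k) = 0 ∨ (∑ i, X i j k) = 0) → w i j k = 0 := by
    rintro i j k (hh | hh | hh)
    · rw [← h1 i j, Finset.sum_eq_zero_iff] at hh; exact hh k (Finset.mem_univ _)
    · rw [← h2 i k, Finset.sum_eq_zero_iff] at hh; exact hh j (Finset.mem_univ _)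
    · rw [← h3 j k, Finset.sum_eq_zero_iff] at hh; exact hh i (Finset.mem_univ _)
  have a00 : w 0 0 0 + w 0 0 1 + w 0 0 2 = 1 := by
    have e := h1 0 0
    have e' : (∑ k, X 0 0 k) = 1 := by decide
    rw [e', Fin.sum_univ_six] at e
    have z0 := key 0 0 3 (by decide)
    have z1 := key 0 0 4 (by decide)
    have z2 := key 0 0 5 (by decide)
    omega
  have a01 : w 0 1 0 + w 0 1 1 + w 0 1 3 = 1 := by
    have e := h1 0 1
    have e' : (∑ k, X 0 1 k) = 1 := by decide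
    rw [e', Fin.sum_univ_six] at e
    have z0 := key 0 1 2 (by decide)
    have z1 := key 0 1 4 (by decide)
    have z2 := key 0 1 5 (by decide)
    omega
  have a02 : w 0 2 0 + w 0 2 2 = 1 := by
    have e := h1 0 2
    have e' : (∑ k, X 0 2 k) = 1 := by decide
    rw [e', Fin.sum_univ_six] at e
    have z0 := key 0 2 1 (by decide)
    have z1 := key 0 2 3 (by decide)
    have z2 := key 0 2 4 (by decide)
    have z3 := key 0 2 5 (by decide)
    omega
  have a03 : w 0 3 1 + w 0 3 3 = 1 := by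
    have e := h1 0 3
    have e' : (∑ k, X 0 3 k) = 1 := by decide
    rw [e', Fin.sum_univ_six] at e
    have z0 := key 0 3 0 (by decide)
    have z1 := key 0 3 2 (by decide)
    have z2 := key 0 3 4 (by decide)
    have z3 := key 0 3 5 (by decide)
    omega
  have a10 : w 1 0 0 + w 1 0 1 + w 1 0 4 = 1 := by
    have e := h1 1 0
    have e' : (∑ k, X 1 0 k) = 1 := by decide
    rw [e', Fin.sum_univ_six] at e
    have z0 := key 1 0 2 (by decide)
    have z1 := key 1 0 3 (by decide)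
    have z2 := key 1 0 5 (by decide)
    omega
  have a11 : w 1 1 0 + w 1 1 1 + w 1 1 5 = 1 := by
    have e := h1 1 1
    have e' : (∑ k, X 1 1 k) = 1 := by decide
    rw [e', Fin.sum_univ_six] at e
    have z0 := key 1 1 2 (by decide)
    have z1 := key 1 1 3 (by decide)
    have z2 := key 1 1 4 (by decide)
    omega
  have a14 : w 1 4 0 + w 1 4 4 = 1 := by
    have e := h1 1 4
    have e' : (∑ k, X 1 4 k) = 1 := by decide
    rw [e', Fin.sum_univ_six] at e
    have z0 := key 1 4 1 (by decide)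
    have z1 := key 1 4 2 (by decide)
    have z2 := key 1 4 3 (by decide)
    have z3 := key 1 4 5 (by decide)
    omega
  have a15 : w 1 5 1 + w 1 5 5 = 1 := by
    have e := h1 1 5
    have e' : (∑ k, X 1 5 k) = 1 := by decide
    rw [e', Fin.sum_univ_six] at e
    have z0 := key 1 5 0 (by decide)
    have z1 := key 1 5 2 (by decide)
    have z2 := key 1 5 3 (by decide)
    have z3 := key 1 5 4 (by decide)
    omega
  have a20 : w 2 0 1 + w 2 0 2 = 1 := by
    have e := h1 2 0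
    have e' : (∑ k, X 2 0 k) = 1 := by decide
    rw [e', Fin.sum_univ_six] at e
    have z0 := key 2 0 0 (by decide)
    have z1 := key 2 0 3 (by decide)
    have z2 := key 2 0 4 (by decide)
    have z3 := key 2 0 5 (by decide)
    omega
  have a22 : w 2 2 2 + w 2 2 5 = 1 := by
    have e := h1 2 2
    have e' : (∑ k, X 2 2 k) = 1 := by decide
    rw [e', Fin.sum_univ_six] at e
    have z0 := key 2 2 0 (by decide)
    have z1 := key 2 2 1 (by decide)
    have z2 := key 2 2 3 (by decide)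
    have z3 := key 2 2 4 (by decide)
    omega
  have a25 : w 2 5 1 + w 2 5 5 = 1 := by
    have e := h1 2 5
    have e' : (∑ k, X 2 5 k) = 1 := by decide
    rw [e', Fin.sum_univ_six] at e
    have z0 := key 2 5 0 (by decide)
    have z1 := key 2 5 2 (by decide)
    have z2 := key 2 5 3 (by decide)
    have z3 := key 2 5 4 (by decide)
    omega
  have a31 : w 3 1 0 + w 3 1 3 = 1 := by
    have e := h1 3 1
    have e' : (∑ k, X 3 1 k) = 1 := by decide
    rw [e', Fin.sum_univ_six] at e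
    have z0 := key 3 1 1 (by decide)
    have z1 := key 3 1 2 (by decide)
    have z2 := key 3 1 4 (by decide)
    have z3 := key 3 1 5 (by decide)
    omega
  have a33 : w 3 3 3 + w 3 3 4 = 1 := by
    have e := h1 3 3
    have e' : (∑ k, X 3 3 k) = 1 := by decide
    rw [e', Fin.sum_univ_six] at e
    have z0 := key 3 3 0 (by decide)
    have z1 := key 3 3 1 (by decide)
    have z2 := key 3 3 2 (by decide)
    have z3 := key 3 3 5 (by decide)
    omega
  have a34 : w 3 4 0 + w 3 4 4 = 1 := by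
    have e := h1 3 4
    have e' : (∑ k, X 3 4 k) = 1 := by decide
    rw [e', Fin.sum_univ_six] at e
    have z0 := key 3 4 1 (by decide)
    have z1 := key 3 4 2 (by decide)
    have z2 := key 3 4 3 (by decide)
    have z3 := key 3 4 5 (by decide)
    omega
  have a40 : w 4 0 0 + w 4 0 4 = 1 := by
    have e := h1 4 0
    have e' : (∑ k, X 4 0 k) = 1 := by decide
    rw [e', Fin.sum_univ_six] at e
    have z0 := key 4 0 1 (by decide)
    have z1 := key 4 0 2 (by decide)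
    have z2 := key 4 0 3 (by decide)
    have z3 := key 4 0 5 (by decide)
    omega
  have a42 : w 4 2 0 + w 4 2 5 = 1 := by
    have e := h1 4 2
    have e' : (∑ k, X 4 2 k) = 1 := by decide
    rw [e', Fin.sum_univ_six] at e
    have z0 := key 4 2 1 (by decide)
    have z1 := key 4 2 2 (by decide)
    have z2 := key 4 2 3 (by decide)
    have z3 := key 4 2 4 (by decide)
    omega
  have a43 : w 4 3 4 + w 4 3 5 = 1 := by
    have e := h1 4 3
    have e' : (∑ k, X 4 3 k) = 1 := by decide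
    rw [e', Fin.sum_univ_six] at e
    have z0 := key 4 3 0 (by decide)
    have z1 := key 4 3 1 (by decide)
    have z2 := key 4 3 2 (by decide)
    have z3 := key 4 3 3 (by decide)
    omega
  have a51 : w 5 1 1 + w 5 1 5 = 1 := by
    have e := h1 5 1
    have e' : (∑ k, X 5 1 k) = 1 := by decide
    rw [e', Fin.sum_univ_six] at e
    have z0 := key 5 1 0 (by decide)
    have z1 := key 5 1 2 (by decide)
    have z2 := key 5 1 3 (by decide)
    have z3 := key 5 1 4 (by decide)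
    omega
  have a53 : w 5 3 1 + w 5 3 5 = 1 := by
    have e := h1 5 3
    have e' : (∑ k, X 5 3 k) = 1 := by decide
    rw [e', Fin.sum_univ_six] at e
    have z0 := key 5 3 0 (by decide)
    have z1 := key 5 3 2 (by decide)
    have z2 := key 5 3 3 (by decide)
    have z3 := key 5 3 4 (by decide)
    omega
  have b00 : w 0 0 0 + w 0 1 0 + w 0 2 0 = 1 := by
    have e := h2 0 0
    have e' : (∑ j, X 0 j 0) = 1 := by decide
    rw [e', Fin.sum_univ_six] at e
    have z0 := key 0 3 0 (by decide)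
    have z1 := key 0 4 0 (by decide)
    have z2 := key 0 5 0 (by decide)
    omega
  have b01 : w 0 0 1 + w 0 1 1 + w 0 3 1 = 1 := by
    have e := h2 0 1
    have e' : (∑ j, X 0 j 1) = 1 := by decide
    rw [e', Fin.sum_univ_six] at e
    have z0 := key 0 2 1 (by decide)
    have z1 := key 0 4 1 (by decide)
    have z2 := key 0 5 1 (by decide)
    omega
  have b02 : w 0 0 2 + w 0 2 2 = 1 := by
    have e := h2 0 2
    have e' : (∑ j, X 0 j 2) = 1 := by decide
    rw [e', Fin.sum_univ_six] at e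
    have z0 := key 0 1 2 (by decide)
    have z1 := key 0 3 2 (by decide)
    have z2 := key 0 4 2 (by decide)
    have z3 := key 0 5 2 (by decide)
    omega
  have b03 : w 0 1 3 + w 0 3 3 = 1 := by
    have e := h2 0 3
    have e' : (∑ j, X 0 j 3) = 1 := by decide
    rw [e', Fin.sum_univ_six] at e
    have z0 := key 0 0 3 (by decide)
    have z1 := key 0 2 3 (by decide)
    have z2 := key 0 4 3 (by decide)
    have z3 := key 0 5 3 (by decide)
    omega
  have b10 : w 1 0 0 + w 1 1 0 + w 1 4 0 = 1 := by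
    have e := h2 1 0
    have e' : (∑ j, X 1 j 0) = 1 := by decide
    rw [e', Fin.sum_univ_six] at e
    have z0 := key 1 2 0 (by decide)
    have z1 := key 1 3 0 (by decide)
    have z2 := key 1 5 0 (by decide)
    omega
  have b11 : w 1 0 1 + w 1 1 1 + w 1 5 1 = 1 := by
    have e := h2 1 1
    have e' : (∑ j, X 1 j 1) = 1 := by decide
    rw [e', Fin.sum_univ_six] at e
    have z0 := key 1 2 1 (by decide)
    have z1 := key 1 3 1 (by decide)
    have z2 := key 1 4 1 (by decide)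
    omega
  have b14 : w 1 0 4 + w 1 4 4 = 1 := by
    have e := h2 1 4
    have e' : (∑ j, X 1 j 4) = 1 := by decide
    rw [e', Fin.sum_univ_six] at e
    have z0 := key 1 1 4 (by decide)
    have z1 := key 1 2 4 (by decide)
    have z2 := key 1 3 4 (by decide)
    have z3 := key 1 5 4 (by decide)
    omega
  have b15 : w 1 1 5 + w 1 5 5 = 1 := by
    have e := h2 1 5
    have e' : (∑ j, X 1 j 5) = 1 := by decide
    rw [e', Fin.sum_univ_six] at e
    have z0 := key 1 0 5 (by decide)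
    have z1 := key 1 2 5 (by decide)
    have z2 := key 1 3 5 (by decide)
    have z3 := key 1 4 5 (by decide)
    omega
  have b21 : w 2 0 1 + w 2 5 1 = 1 := by
    have e := h2 2 1
    have e' : (∑ j, X 2 j 1) = 1 := by decide
    rw [e', Fin.sum_univ_six] at e
    have z0 := key 2 1 1 (by decide)
    have z1 := key 2 2 1 (by decide)
    have z2 := key 2 3 1 (by decide)
    have z3 := key 2 4 1 (by decide)
    omega
  have b22 : w 2 0 2 + w 2 2 2 = 1 := by
    have e := h2 2 2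
    have e' : (∑ j, X 2 j 2) = 1 := by decide
    rw [e', Fin.sum_univ_six] at e
    have z0 := key 2 1 2 (by decide)
    have z1 := key 2 3 2 (by decide)
    have z2 := key 2 4 2 (by decide)
    have z3 := key 2 5 2 (by decide)
    omega
  have b25 : w 2 2 5 + w 2 5 5 = 1 := by
    have e := h2 2 5
    have e' : (∑ j, X 2 j 5) = 1 := by decide
    rw [e', Fin.sum_univ_six] at e
    have z0 := key 2 0 5 (by decide)
    have z1 := key 2 1 5 (by decide)
    have z2 := key 2 3 5 (by decide)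
    have z3 := key 2 4 5 (by decide)
    omega
  have b30 : w 3 1 0 + w 3 4 0 = 1 := by
    have e := h2 3 0
    have e' : (∑ j, X 3 j 0) = 1 := by decide
    rw [e', Fin.sum_univ_six] at e
    have z0 := key 3 0 0 (by decide)
    have z1 := key 3 2 0 (by decide)
    have z2 := key 3 3 0 (by decide)
    have z3 := key 3 5 0 (by decide)
    omega
  have b33 : w 3 1 3 + w 3 3 3 = 1 := by
    have e := h2 3 3
    have e' : (∑ j, X 3 j 3) = 1 := by decide
    rw [e', Fin.sum_univ_six] at e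
    have z0 := key 3 0 3 (by decide)
    have z1 := key 3 2 3 (by decide)
    have z2 := key 3 4 3 (by decide)
    have z3 := key 3 5 3 (by decide)
    omega
  have b34 : w 3 3 4 + w 3 4 4 = 1 := by
    have e := h2 3 4
    have e' : (∑ j, X 3 j 4) = 1 := by decide
    rw [e', Fin.sum_univ_six] at e
    have z0 := key 3 0 4 (by decide)
    have z1 := key 3 1 4 (by decide)
    have z2 := key 3 2 4 (by decide)
    have z3 := key 3 5 4 (by decide)
    omega
  have b40 : w 4 0 0 + w 4 2 0 = 1 := by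
    have e := h2 4 0
    have e' : (∑ j, X 4 j 0) = 1 := by decide
    rw [e', Fin.sum_univ_six] at e
    have z0 := key 4 1 0 (by decide)
    have z1 := key 4 3 0 (by decide)
    have z2 := key 4 4 0 (by decide)
    have z3 := key 4 5 0 (by decide)
    omega
  have b44 : w 4 0 4 + w 4 3 4 = 1 := by
    have e := h2 4 4
    have e' : (∑ j, X 4 j 4) = 1 := by decide
    rw [e', Fin.sum_univ_six] at e
    have z0 := key 4 1 4 (by decide)
    have z1 := key 4 2 4 (by decide)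
    have z2 := key 4 4 4 (by decide)
    have z3 := key 4 5 4 (by decide)
    omega
  have b45 : w 4 2 5 + w 4 3 5 = 1 := by
    have e := h2 4 5
    have e' : (∑ j, X 4 j 5) = 1 := by decide
    rw [e', Fin.sum_univ_six] at e
    have z0 := key 4 0 5 (by decide)
    have z1 := key 4 1 5 (by decide)
    have z2 := key 4 4 5 (by decide)
    have z3 := key 4 5 5 (by decide)
    omega
  have b51 : w 5 1 1 + w 5 3 1 = 1 := by
    have e := h2 5 1
    have e' : (∑ j, X 5 j 1) = 1 := by decide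
    rw [e', Fin.sum_univ_six] at e
    have z0 := key 5 0 1 (by decide)
    have z1 := key 5 2 1 (by decide)
    have z2 := key 5 4 1 (by decide)
    have z3 := key 5 5 1 (by decide)
    omega
  have b55 : w 5 1 5 + w 5 3 5 = 1 := by
    have e := h2 5 5
    have e' : (∑ j, X 5 j 5) = 1 := by decide
    rw [e', Fin.sum_univ_six] at e
    have z0 := key 5 0 5 (by decide)
    have z1 := key 5 2 5 (by decide)
    have z2 := key 5 4 5 (by decide)
    have z3 := key 5 5 5 (by decide)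
    omega
  have c00 : w 0 0 0 + w 1 0 0 + w 4 0 0 = 1 := by
    have e := h3 0 0
    have e' : (∑ i, X i 0 0) = 1 := by decide
    rw [e', Fin.sum_univ_six] at e
    have z0 := key 2 0 0 (by decide)
    have z1 := key 3 0 0 (by decide)
    have z2 := key 5 0 0 (by decide)
    omega
  have c01 : w 0 0 1 + w 1 0 1 + w 2 0 1 = 1 := by
    have e := h3 0 1
    have e' : (∑ i, X i 0 1) = 1 := by decide
    rw [e', Fin.sum_univ_six] at e
    have z0 := key 3 0 1 (by decide)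
    have z1 := key 4 0 1 (by decide)
    have z2 := key 5 0 1 (by decide)
    omega
  have c02 : w 0 0 2 + w 2 0 2 = 1 := by
    have e := h3 0 2
    have e' : (∑ i, X i 0 2) = 1 := by decide
    rw [e', Fin.sum_univ_six] at e
    have z0 := key 1 0 2 (by decide)
    have z1 := key 3 0 2 (by decide)
    have z2 := key 4 0 2 (by decide)
    have z3 := key 5 0 2 (by decide)
    omega
  have c04 : w 1 0 4 + w 4 0 4 = 1 := by
    have e := h3 0 4
    have e' : (∑ i, X i 0 4) = 1 := by decide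
    rw [e', Fin.sum_univ_six] at e
    have z0 := key 0 0 4 (by decide)
    have z1 := key 2 0 4 (by decide)
    have z2 := key 3 0 4 (by decide)
    have z3 := key 5 0 4 (by decide)
    omega
  have c10 : w 0 1 0 + w 1 1 0 + w 3 1 0 = 1 := by
    have e := h3 1 0
    have e' : (∑ i, X i 1 0) = 1 := by decide
    rw [e', Fin.sum_univ_six] at e
    have z0 := key 2 1 0 (by decide)
    have z1 := key 4 1 0 (by decide)
    have z2 := key 5 1 0 (by decide)
    omega
  have c11 : w 0 1 1 + w 1 1 1 + w 5 1 1 = 1 := by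
    have e := h3 1 1
    have e' : (∑ i, X i 1 1) = 1 := by decide
    rw [e', Fin.sum_univ_six] at e
    have z0 := key 2 1 1 (by decide)
    have z1 := key 3 1 1 (by decide)
    have z2 := key 4 1 1 (by decide)
    omega
  have c13 : w 0 1 3 + w 3 1 3 = 1 := by
    have e := h3 1 3
    have e' : (∑ i, X i 1 3) = 1 := by decide
    rw [e', Fin.sum_univ_six] at e
    have z0 := key 1 1 3 (by decide)
    have z1 := key 2 1 3 (by decide)
    have z2 := key 4 1 3 (by decide)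
    have z3 := key 5 1 3 (by decide)
    omega
  have c15 : w 1 1 5 + w 5 1 5 = 1 := by
    have e := h3 1 5
    have e' : (∑ i, X i 1 5) = 1 := by decide
    rw [e', Fin.sum_univ_six] at e
    have z0 := key 0 1 5 (by decide)
    have z1 := key 2 1 5 (by decide)
    have z2 := key 3 1 5 (by decide)
    have z3 := key 4 1 5 (by decide)
    omega
  have c20 : w 0 2 0 + w 4 2 0 = 1 := by
    have e := h3 2 0
    have e' : (∑ i, X i 2 0) = 1 := by decide
    rw [e', Fin.sum_univ_six] at e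
    have z0 := key 1 2 0 (by decide)
    have z1 := key 2 2 0 (by decide)
    have z2 := key 3 2 0 (by decide)
    have z3 := key 5 2 0 (by decide)
    omega
  have c22 : w 0 2 2 + w 2 2 2 = 1 := by
    have e := h3 2 2
    have e' : (∑ i, X i 2 2) = 1 := by decide
    rw [e', Fin.sum_univ_six] at e
    have z0 := key 1 2 2 (by decide)
    have z1 := key 3 2 2 (by decide)
    have z2 := key 4 2 2 (by decide)
    have z3 := key 5 2 2 (by decide)
    omega
  have c25 : w 2 2 5 + w 4 2 5 = 1 := by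
    have e := h3 2 5
    have e' : (∑ i, X i 2 5) = 1 := by decide
    rw [e', Fin.sum_univ_six] at e
    have z0 := key 0 2 5 (by decide)
    have z1 := key 1 2 5 (by decide)
    have z2 := key 3 2 5 (by decide)
    have z3 := key 5 2 5 (by decide)
    omega
  have c31 : w 0 3 1 + w 5 3 1 = 1 := by
    have e := h3 3 1
    have e' : (∑ i, X i 3 1) = 1 := by decide
    rw [e', Fin.sum_univ_six] at e
    have z0 := key 1 3 1 (by decide)
    have z1 := key 2 3 1 (by decide)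
    have z2 := key 3 3 1 (by decide)
    have z3 := key 4 3 1 (by decide)
    omega
  have c33 : w 0 3 3 + w 3 3 3 = 1 := by
    have e := h3 3 3
    have e' : (∑ i, X i 3 3) = 1 := by decide
    rw [e', Fin.sum_univ_six] at e
    have z0 := key 1 3 3 (by decide)
    have z1 := key 2 3 3 (by decide)
    have z2 := key 4 3 3 (by decide)
    have z3 := key 5 3 3 (by decide)
    omega
  have c34 : w 3 3 4 + w 4 3 4 = 1 := by
    have e := h3 3 4
    have e' : (∑ i, X i 3 4) = 1 := by decide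
    rw [e', Fin.sum_univ_six] at e
    have z0 := key 0 3 4 (by decide)
    have z1 := key 1 3 4 (by decide)
    have z2 := key 2 3 4 (by decide)
    have z3 := key 5 3 4 (by decide)
    omega
  have c35 : w 4 3 5 + w 5 3 5 = 1 := by
    have e := h3 3 5
    have e' : (∑ i, X i 3 5) = 1 := by decide
    rw [e', Fin.sum_univ_six] at e
    have z0 := key 0 3 5 (by decide)
    have z1 := key 1 3 5 (by decide)
    have z2 := key 2 3 5 (by decide)
    have z3 := key 3 3 5 (by decide)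
    omega
  have c40 : w 1 4 0 + w 3 4 0 = 1 := by
    have e := h3 4 0
    have e' : (∑ i, X i 4 0) = 1 := by decide
    rw [e', Fin.sum_univ_six] at e
    have z0 := key 0 4 0 (by decide)
    have z1 := key 2 4 0 (by decide)
    have z2 := key 4 4 0 (by decide)
    have z3 := key 5 4 0 (by decide)
    omega
  have c44 : w 1 4 4 + w 3 4 4 = 1 := by
    have e := h3 4 4
    have e' : (∑ i, X i 4 4) = 1 := by decide
    rw [e', Fin.sum_univ_six] at e
    have z0 := key 0 4 4 (by decide)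
    have z1 := key 2 4 4 (by decide)
    have z2 := key 4 4 4 (by decide)
    have z3 := key 5 4 4 (by decide)
    omega
  have c51 : w 1 5 1 + w 2 5 1 = 1 := by
    have e := h3 5 1
    have e' : (∑ i, X i 5 1) = 1 := by decide
    rw [e', Fin.sum_univ_six] at e
    have z0 := key 0 5 1 (by decide)
    have z1 := key 3 5 1 (by decide)
    have z2 := key 4 5 1 (by decide)
    have z3 := key 5 5 1 (by decide)
    omega
  have c55 : w 1 5 5 + w 2 5 5 = 1 := by
    have e := h3 5 5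
    have e' : (∑ i, X i 5 5) = 1 := by decide
    rw [e', Fin.sum_univ_six] at e
    have z0 := key 0 5 5 (by decide)
    have z1 := key 3 5 5 (by decide)
    have z2 := key 4 5 5 (by decide)
    have z3 := key 5 5 5 (by decide)
    omega
  have t000 : w 0 0 0 = w 0 0 0 * X 0 0 0 + w 0 0 1 * Y 0 0 0 + w 0 0 2 * Z 0 0 0 := by
    have eX : X 0 0 0 = 1 := by decide
    have eY : Y 0 0 0 = 0 := by decide
    have eZ : Z 0 0 0 = 0 := by decide
    rw [eX, eY, eZ]; omega
  have t001 : w 0 0 1 = w 0 0 0 * X 0 0 1 + w 0 0 1 * Y 0 0 1 + w 0 0 2 * Z 0 0 1 := by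
    have eX : X 0 0 1 = 0 := by decide
    have eY : Y 0 0 1 = 1 := by decide
    have eZ : Z 0 0 1 = 0 := by decide
    rw [eX, eY, eZ]; omega
  have t002 : w 0 0 2 = w 0 0 0 * X 0 0 2 + w 0 0 1 * Y 0 0 2 + w 0 0 2 * Z 0 0 2 := by
    have eX : X 0 0 2 = 0 := by decide
    have eY : Y 0 0 2 = 0 := by decide
    have eZ : Z 0 0 2 = 1 := by decide
    rw [eX, eY, eZ]; omega
  have t010 : w 0 1 0 = w 0 0 0 * X 0 1 0 + w 0 0 1 * Y 0 1 0 + w 0 0 2 * Z 0 1 0 := by
    have eX : X 0 1 0 = 0 := by decide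
    have eY : Y 0 1 0 = 1 := by decide
    have eZ : Z 0 1 0 = 0 := by decide
    rw [eX, eY, eZ]; omega
  have t011 : w 0 1 1 = w 0 0 0 * X 0 1 1 + w 0 0 1 * Y 0 1 1 + w 0 0 2 * Z 0 1 1 := by
    have eX : X 0 1 1 = 1 := by decide
    have eY : Y 0 1 1 = 0 := by decide
    have eZ : Z 0 1 1 = 0 := by decide
    rw [eX, eY, eZ]; omega
  have t013 : w 0 1 3 = w 0 0 0 * X 0 1 3 + w 0 0 1 * Y 0 1 3 + w 0 0 2 * Z 0 1 3 := by
    have eX : X 0 1 3 = 0 := by decide
    have eY : Y 0 1 3 = 0 := by decide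
    have eZ : Z 0 1 3 = 1 := by decide
    rw [eX, eY, eZ]; omega
  have t020 : w 0 2 0 = w 0 0 0 * X 0 2 0 + w 0 0 1 * Y 0 2 0 + w 0 0 2 * Z 0 2 0 := by
    have eX : X 0 2 0 = 0 := by decide
    have eY : Y 0 2 0 = 0 := by decide
    have eZ : Z 0 2 0 = 1 := by decide
    rw [eX, eY, eZ]; omega
  have t022 : w 0 2 2 = w 0 0 0 * X 0 2 2 + w 0 0 1 * Y 0 2 2 + w 0 0 2 * Z 0 2 2 := by
    have eX : X 0 2 2 = 1 := by decide
    have eY : Y 0 2 2 = 1 := by decide
    have eZ : Z 0 2 2 = 0 := by decide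
    rw [eX, eY, eZ]; omega
  have t031 : w 0 3 1 = w 0 0 0 * X 0 3 1 + w 0 0 1 * Y 0 3 1 + w 0 0 2 * Z 0 3 1 := by
    have eX : X 0 3 1 = 0 := by decide
    have eY : Y 0 3 1 = 0 := by decide
    have eZ : Z 0 3 1 = 1 := by decide
    rw [eX, eY, eZ]; omega
  have t033 : w 0 3 3 = w 0 0 0 * X 0 3 3 + w 0 0 1 * Y 0 3 3 + w 0 0 2 * Z 0 3 3 := by
    have eX : X 0 3 3 = 1 := by decide
    have eY : Y 0 3 3 = 1 := by decide
    have eZ : Z 0 3 3 = 0 := by decide
    rw [eX, eY, eZ]; omega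
  have t100 : w 1 0 0 = w 0 0 0 * X 1 0 0 + w 0 0 1 * Y 1 0 0 + w 0 0 2 * Z 1 0 0 := by
    have eX : X 1 0 0 = 0 := by decide
    have eY : Y 1 0 0 = 1 := by decide
    have eZ : Z 1 0 0 = 0 := by decide
    rw [eX, eY, eZ]; omega
  have t101 : w 1 0 1 = w 0 0 0 * X 1 0 1 + w 0 0 1 * Y 1 0 1 + w 0 0 2 * Z 1 0 1 := by
    have eX : X 1 0 1 = 1 := by decide
    have eY : Y 1 0 1 = 0 := by decide
    have eZ : Z 1 0 1 = 0 := by decide
    rw [eX, eY, eZ]; omega
  have t104 : w 1 0 4 = w 0 0 0 * X 1 0 4 + w 0 0 1 * Y 1 0 4 + w 0 0 2 * Z 1 0 4 := by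
    have eX : X 1 0 4 = 0 := by decide
    have eY : Y 1 0 4 = 0 := by decide
    have eZ : Z 1 0 4 = 1 := by decide
    rw [eX, eY, eZ]; omega
  have t110 : w 1 1 0 = w 0 0 0 * X 1 1 0 + w 0 0 1 * Y 1 1 0 + w 0 0 2 * Z 1 1 0 := by
    have eX : X 1 1 0 = 1 := by decide
    have eY : Y 1 1 0 = 0 := by decide
    have eZ : Z 1 1 0 = 0 := by decide
    rw [eX, eY, eZ]; omega
  have t111 : w 1 1 1 = w 0 0 0 * X 1 1 1 + w 0 0 1 * Y 1 1 1 + w 0 0 2 * Z 1 1 1 := by
    have eX : X 1 1 1 = 0 := by decide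
    have eY : Y 1 1 1 = 1 := by decide
    have eZ : Z 1 1 1 = 0 := by decide
    rw [eX, eY, eZ]; omega
  have t115 : w 1 1 5 = w 0 0 0 * X 1 1 5 + w 0 0 1 * Y 1 1 5 + w 0 0 2 * Z 1 1 5 := by
    have eX : X 1 1 5 = 0 := by decide
    have eY : Y 1 1 5 = 0 := by decide
    have eZ : Z 1 1 5 = 1 := by decide
    rw [eX, eY, eZ]; omega
  have t140 : w 1 4 0 = w 0 0 0 * X 1 4 0 + w 0 0 1 * Y 1 4 0 + w 0 0 2 * Z 1 4 0 := by
    have eX : X 1 4 0 = 0 := by decide
    have eY : Y 1 4 0 = 0 := by decide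
    have eZ : Z 1 4 0 = 1 := by decide
    rw [eX, eY, eZ]; omega
  have t144 : w 1 4 4 = w 0 0 0 * X 1 4 4 + w 0 0 1 * Y 1 4 4 + w 0 0 2 * Z 1 4 4 := by
    have eX : X 1 4 4 = 1 := by decide
    have eY : Y 1 4 4 = 1 := by decide
    have eZ : Z 1 4 4 = 0 := by decide
    rw [eX, eY, eZ]; omega
  have t151 : w 1 5 1 = w 0 0 0 * X 1 5 1 + w 0 0 1 * Y 1 5 1 + w 0 0 2 * Z 1 5 1 := by
    have eX : X 1 5 1 = 0 := by decide
    have eY : Y 1 5 1 = 0 := by decide
    have eZ : Z 1 5 1 = 1 := by decide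
    rw [eX, eY, eZ]; omega
  have t155 : w 1 5 5 = w 0 0 0 * X 1 5 5 + w 0 0 1 * Y 1 5 5 + w 0 0 2 * Z 1 5 5 := by
    have eX : X 1 5 5 = 1 := by decide
    have eY : Y 1 5 5 = 1 := by decide
    have eZ : Z 1 5 5 = 0 := by decide
    rw [eX, eY, eZ]; omega
  have t201 : w 2 0 1 = w 0 0 0 * X 2 0 1 + w 0 0 1 * Y 2 0 1 + w 0 0 2 * Z 2 0 1 := by
    have eX : X 2 0 1 = 0 := by decide
    have eY : Y 2 0 1 = 0 := by decide
    have eZ : Z 2 0 1 = 1 := by decide
    rw [eX, eY, eZ]; omega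
  have t202 : w 2 0 2 = w 0 0 0 * X 2 0 2 + w 0 0 1 * Y 2 0 2 + w 0 0 2 * Z 2 0 2 := by
    have eX : X 2 0 2 = 1 := by decide
    have eY : Y 2 0 2 = 1 := by decide
    have eZ : Z 2 0 2 = 0 := by decide
    rw [eX, eY, eZ]; omega
  have t222 : w 2 2 2 = w 0 0 0 * X 2 2 2 + w 0 0 1 * Y 2 2 2 + w 0 0 2 * Z 2 2 2 := by
    have eX : X 2 2 2 = 0 := by decide
    have eY : Y 2 2 2 = 0 := by decide
    have eZ : Z 2 2 2 = 1 := by decide
    rw [eX, eY, eZ]; omega
  have t225 : w 2 2 5 = w 0 0 0 * X 2 2 5 + w 0 0 1 * Y 2 2 5 + w 0 0 2 * Z 2 2 5 := by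
    have eX : X 2 2 5 = 1 := by decide
    have eY : Y 2 2 5 = 1 := by decide
    have eZ : Z 2 2 5 = 0 := by decide
    rw [eX, eY, eZ]; omega
  have t251 : w 2 5 1 = w 0 0 0 * X 2 5 1 + w 0 0 1 * Y 2 5 1 + w 0 0 2 * Z 2 5 1 := by
    have eX : X 2 5 1 = 1 := by decide
    have eY : Y 2 5 1 = 1 := by decide
    have eZ : Z 2 5 1 = 0 := by decide
    rw [eX, eY, eZ]; omega
  have t255 : w 2 5 5 = w 0 0 0 * X 2 5 5 + w 0 0 1 * Y 2 5 5 + w 0 0 2 * Z 2 5 5 := by
    have eX : X 2 5 5 = 0 := by decide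
    have eY : Y 2 5 5 = 0 := by decide
    have eZ : Z 2 5 5 = 1 := by decide
    rw [eX, eY, eZ]; omega
  have t310 : w 3 1 0 = w 0 0 0 * X 3 1 0 + w 0 0 1 * Y 3 1 0 + w 0 0 2 * Z 3 1 0 := by
    have eX : X 3 1 0 = 0 := by decide
    have eY : Y 3 1 0 = 0 := by decide
    have eZ : Z 3 1 0 = 1 := by decide
    rw [eX, eY, eZ]; omega
  have t313 : w 3 1 3 = w 0 0 0 * X 3 1 3 + w 0 0 1 * Y 3 1 3 + w 0 0 2 * Z 3 1 3 := by
    have eX : X 3 1 3 = 1 := by decide
    have eY : Y 3 1 3 = 1 := by decide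
    have eZ : Z 3 1 3 = 0 := by decide
    rw [eX, eY, eZ]; omega
  have t333 : w 3 3 3 = w 0 0 0 * X 3 3 3 + w 0 0 1 * Y 3 3 3 + w 0 0 2 * Z 3 3 3 := by
    have eX : X 3 3 3 = 0 := by decide
    have eY : Y 3 3 3 = 0 := by decide
    have eZ : Z 3 3 3 = 1 := by decide
    rw [eX, eY, eZ]; omega
  have t334 : w 3 3 4 = w 0 0 0 * X 3 3 4 + w 0 0 1 * Y 3 3 4 + w 0 0 2 * Z 3 3 4 := by
    have eX : X 3 3 4 = 1 := by decide
    have eY : Y 3 3 4 = 1 := by decide
    have eZ : Z 3 3 4 = 0 := by decide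
    rw [eX, eY, eZ]; omega
  have t340 : w 3 4 0 = w 0 0 0 * X 3 4 0 + w 0 0 1 * Y 3 4 0 + w 0 0 2 * Z 3 4 0 := by
    have eX : X 3 4 0 = 1 := by decide
    have eY : Y 3 4 0 = 1 := by decide
    have eZ : Z 3 4 0 = 0 := by decide
    rw [eX, eY, eZ]; omega
  have t344 : w 3 4 4 = w 0 0 0 * X 3 4 4 + w 0 0 1 * Y 3 4 4 + w 0 0 2 * Z 3 4 4 := by
    have eX : X 3 4 4 = 0 := by decide
    have eY : Y 3 4 4 = 0 := by decide
    have eZ : Z 3 4 4 = 1 := by decide
    rw [eX, eY, eZ]; omega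
  have t400 : w 4 0 0 = w 0 0 0 * X 4 0 0 + w 0 0 1 * Y 4 0 0 + w 0 0 2 * Z 4 0 0 := by
    have eX : X 4 0 0 = 0 := by decide
    have eY : Y 4 0 0 = 0 := by decide
    have eZ : Z 4 0 0 = 1 := by decide
    rw [eX, eY, eZ]; omega
  have t404 : w 4 0 4 = w 0 0 0 * X 4 0 4 + w 0 0 1 * Y 4 0 4 + w 0 0 2 * Z 4 0 4 := by
    have eX : X 4 0 4 = 1 := by decide
    have eY : Y 4 0 4 = 1 := by decide
    have eZ : Z 4 0 4 = 0 := by decide
    rw [eX, eY, eZ]; omega
  have t420 : w 4 2 0 = w 0 0 0 * X 4 2 0 + w 0 0 1 * Y 4 2 0 + w 0 0 2 * Z 4 2 0 := by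
    have eX : X 4 2 0 = 1 := by decide
    have eY : Y 4 2 0 = 1 := by decide
    have eZ : Z 4 2 0 = 0 := by decide
    rw [eX, eY, eZ]; omega
  have t425 : w 4 2 5 = w 0 0 0 * X 4 2 5 + w 0 0 1 * Y 4 2 5 + w 0 0 2 * Z 4 2 5 := by
    have eX : X 4 2 5 = 0 := by decide
    have eY : Y 4 2 5 = 0 := by decide
    have eZ : Z 4 2 5 = 1 := by decide
    rw [eX, eY, eZ]; omega
  have t434 : w 4 3 4 = w 0 0 0 * X 4 3 4 + w 0 0 1 * Y 4 3 4 + w 0 0 2 * Z 4 3 4 := by
    have eX : X 4 3 4 = 0 := by decide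
    have eY : Y 4 3 4 = 0 := by decide
    have eZ : Z 4 3 4 = 1 := by decide
    rw [eX, eY, eZ]; omega
  have t435 : w 4 3 5 = w 0 0 0 * X 4 3 5 + w 0 0 1 * Y 4 3 5 + w 0 0 2 * Z 4 3 5 := by
    have eX : X 4 3 5 = 1 := by decide
    have eY : Y 4 3 5 = 1 := by decide
    have eZ : Z 4 3 5 = 0 := by decide
    rw [eX, eY, eZ]; omega
  have t511 : w 5 1 1 = w 0 0 0 * X 5 1 1 + w 0 0 1 * Y 5 1 1 + w 0 0 2 * Z 5 1 1 := by
    have eX : X 5 1 1 = 0 := by decide
    have eY : Y 5 1 1 = 0 := by decide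
    have eZ : Z 5 1 1 = 1 := by decide
    rw [eX, eY, eZ]; omega
  have t515 : w 5 1 5 = w 0 0 0 * X 5 1 5 + w 0 0 1 * Y 5 1 5 + w 0 0 2 * Z 5 1 5 := by
    have eX : X 5 1 5 = 1 := by decide
    have eY : Y 5 1 5 = 1 := by decide
    have eZ : Z 5 1 5 = 0 := by decide
    rw [eX, eY, eZ]; omega
  have t531 : w 5 3 1 = w 0 0 0 * X 5 3 1 + w 0 0 1 * Y 5 3 1 + w 0 0 2 * Z 5 3 1 := by
    have eX : X 5 3 1 = 1 := by decide
    have eY : Y 5 3 1 = 1 := by decide
    have eZ : Z 5 3 1 = 0 := by decide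
    rw [eX, eY, eZ]; omega
  have t535 : w 5 3 5 = w 0 0 0 * X 5 3 5 + w 0 0 1 * Y 5 3 5 + w 0 0 2 * Z 5 3 5 := by
    have eX : X 5 3 5 = 0 := by decide
    have eY : Y 5 3 5 = 0 := by decide
    have eZ : Z 5 3 5 = 1 := by decide
    rw [eX, eY, eZ]; omega
  refine ⟨w 0 0 0, w 0 0 1, w 0 0 2, by omega, ?_⟩
  intro i j k
  by_cases p : ((∑ k, X i j k) = 0 ∨ (∑ j, X i j k) = 0 ∨ (∑ i, X i j k) = 0)
  · obtain ⟨q1, q2, q3⟩ := offT i j k p
    rw [key i j k p, q1, q2, q3]; simp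
  · have q := onT i j k p
    simp only [List.mem_cons, Prod.mk.injEq, List.not_mem_nil, or_false] at q
    rcases q with ⟨rfl, rfl, rfl⟩ | ⟨rfl, rfl, rfl⟩ | ⟨rfl, rfl, rfl⟩ | ⟨rfl, rfl, rfl⟩ | ⟨rfl, rfl, rfl⟩ | ⟨rfl, rfl, rfl⟩ | ⟨rfl, rfl, rfl⟩ | ⟨rfl, rfl, rfl⟩ | ⟨rfl, rfl, rfl⟩ | ⟨rfl, rfl, rfl⟩ | ⟨rfl, rfl, rfl⟩ | ⟨rfl, rfl, rfl⟩ | ⟨rfl, rfl, rfl⟩ | ⟨rfl, rfl, rfl⟩ | ⟨rfl, rfl, rfl⟩ | ⟨rfl, rfl, rfl⟩ | ⟨rfl, rfl, rfl⟩ | ⟨rfl, rfl, rfl⟩ | ⟨rfl, rfl, rfl⟩ | ⟨rfl, rfl, rfl⟩ | ⟨rfl, rfl, rfl⟩ | ⟨rfl, rfl, rfl⟩ | ⟨rfl, rfl, rfl⟩ | ⟨rfl, rfl, rfl⟩ | ⟨rfl, rfl, rfl⟩ | ⟨rfl, rfl, rfl⟩ | ⟨rfl, rfl, rfl⟩ | ⟨rfl, rfl, rfl⟩ | ⟨rfl, rfl, rfl⟩ | ⟨rfl, rfl, rfl⟩ | ⟨rfl, rfl, rfl⟩ | ⟨rfl, rfl, rfl⟩ | ⟨rfl, rfl, rfl⟩ | ⟨rfl, rfl, rfl⟩ | ⟨rfl, rfl, rfl⟩ | ⟨rfl, rfl, rfl⟩ | ⟨rfl, rfl, rfl⟩ | ⟨rfl, rfl, rfl⟩ | ⟨rfl, rfl, rfl⟩ | ⟨rfl, rfl, rfl⟩ | ⟨rfl, rfl, rfl⟩ | ⟨rfl, rfl, rfl⟩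
    · exact t000
    · exact t001
    · exact t002
    · exact t010
    · exact t011
    · exact t013
    · exact t020
    · exact t022
    · exact t031
    · exact t033
    · exact t100
    · exact t101
    · exact t104
    · exact t110
    · exact t111
    · exact t115
    · exact t140
    · exact t144
    · exact t151
    · exact t155
    · exact t201
    · exact t202
    · exact t222
    · exact t225
    · exact t251
    · exact t255
    · exact t310
    · exact t313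
    · exact t333
    · exact t334
    · exact t340
    · exact t344
    · exact t400
    · exact t404
    · exact t420
    · exact t425
    · exact t434
    · exact t435
    · exact t511
    · exact t515
    · exact t531
    · exact t535
end Pool.Agent.H16.Markov3
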