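import Mathlib
import Pool.Agent.H16.Markov3
set_option autoImplicit false
namespace Pool.Agent.H16.Markov3

abbrev Mov := Fin 6 → Fin 6 → Fin 6 → ℤ

def Step (B : Finset Mov) (w w' : Tab) : Prop :=
  ∃ m ∈ B, (∀ i j k, (w' i j k : ℤ) = (w i j k : ℤ) + m i j k) ∨
    (∀ i j k, (w' i j k : ℤ) = (w i j k : ℤ) - m i j k)

def IsMove (m : Mov) : Prop :=
  (∀ i j, ∑ k, m i j k = 0) ∧ (∀ i k, ∑ j, m i j k = 0) ∧ (∀ j k, ∑ i, m i j k = 0)

def MB (B : Finset Mov) : Prop :=
  (∀ m ∈ B, IsMove m) ∧ ∀ u v, Same u v → Relation.ReflTransGen (Step B) u v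

theorem Same.symm {u v : Tab} (h : Same u v) : Same v u :=
  ⟨fun i j => (h.1 i j).symm, fun i k => (h.2.1 i k).symm, fun j k => (h.2.2 j k).symm⟩

theorem Same.trans {u v w : Tab} (h : Same u v) (h' : Same v w) : Same u w :=
  ⟨fun i j => (h.1 i j).trans (h'.1 i j), fun i k => (h.2.1 i k).trans (h'.2.1 i k),
   fun j k => (h.2.2 j k).trans (h'.2.2 j k)⟩

theorem same_of_add {w w' : Tab} {m : Mov} (hm : IsMove m)
    (h : ∀ i j k, (w' i j k : ℤ) = (w i j k : ℤ) + m i j k) : Same w w' := by
  refine ⟨fun i j => ?_, fun i k => ?_, fun j k => ?_⟩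
  · have : ((∑ k, w' i j k : ℕ) : ℤ) = ((∑ k, w i j k : ℕ) : ℤ) := by
      push_cast; simp only [h, Finset.sum_add_distrib, hm.1 i j, add_zero]
    exact_mod_cast this.symm
  · have : ((∑ j, w' i j k : ℕ) : ℤ) = ((∑ j, w i j k : ℕ) : ℤ) := by
      push_cast; simp only [h, Finset.sum_add_distrib, hm.2.1 i k, add_zero]
    exact_mod_cast this.symm
  · have : ((∑ i, w' i j k : ℕ) : ℤ) = ((∑ i, w i j k : ℕ) : ℤ) := by
      push_cast; simp only [h, Finset.sum_add_distrib, hm.2.2 j k, add_zero]
    exact_mod_cast this.symm

theorem IsMove.neg {m : Mov} (hm : IsMove m) : IsMove (-m) := by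
  refine ⟨fun i j => ?_, fun i k => ?_, fun j k => ?_⟩
  · simp [Finset.sum_neg_distrib, hm.1 i j]
  · simp [Finset.sum_neg_distrib, hm.2.1 i k]
  · simp [Finset.sum_neg_distrib, hm.2.2 j k]

theorem same_of_step {B : Finset Mov} (hB : ∀ m ∈ B, IsMove m) {w w' : Tab} (h : Step B w w') :
    Same w w' := by
  obtain ⟨m, hm, h | h⟩ := h
  · exact same_of_add (hB m hm) h
  · refine same_of_add (hB m hm).neg (m := -m) ?_
    intro i j k; rw [h i j k]; simp [sub_eq_add_neg]

theorem step_symm {B : Finset Mov} {w w' : Tab} (h : Step B w w') : Step B w' w := by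
  obtain ⟨m, hm, h | h⟩ := h
  · exact ⟨m, hm, Or.inr fun i j k => by rw [h i j k]; ring⟩
  · exact ⟨m, hm, Or.inl fun i j k => by rw [h i j k]; ring⟩

theorem path_symm {B : Finset Mov} {w w' : Tab} (h : Relation.ReflTransGen (Step B) w w') :
    Relation.ReflTransGen (Step B) w' w := by
  induction h with
  | refl => exact .refl
  | tail _ h ih => exact Relation.ReflTransGen.head (step_symm h) ih

def diff (u v : Tab) : Mov := fun i j k => (v i j k : ℤ) - (u i j k : ℤ)

theorem isMove_diff {u v : Tab} (h : Same u v) : IsMove (diff u v) := by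
  refine ⟨fun i j => ?_, fun i k => ?_, fun j k => ?_⟩
  · have := h.1 i j
    simp only [diff, Finset.sum_sub_distrib]
    have h2 : ((∑ k, u i j k : ℕ) : ℤ) = ((∑ k, v i j k : ℕ) : ℤ) := by exact_mod_cast this
    push_cast at h2; rw [h2]; ring
  · have := h.2.1 i k
    simp only [diff, Finset.sum_sub_distrib]
    have h2 : ((∑ j, u i j k : ℕ) : ℤ) = ((∑ j, v i j k : ℕ) : ℤ) := by exact_mod_cast this
    push_cast at h2; rw [h2]; ring
  · have := h.2.2 j k
    simp only [diff, Finset.sum_sub_distrib]
    have h2 : ((∑ i, u i j k : ℕ) : ℤ) = ((∑ i, v i j k : ℕ) : ℤ) := by exact_mod_cast this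
    push_cast at h2; rw [h2]; ring

/-! ### existence of a finite Markov basis (Dickson's lemma) -/

def S (f : Tab × Tab) : Prop := Same f.1 f.2 ∧ f.1 ≠ f.2

theorem fin_min : {f : Tab × Tab | Minimal S f}.Finite := by
  apply WellQuasiOrderedLE.finite_of_isAntichain
  exact setOfPred_minimal_antichain S

def dist (u v : Tab) : ℕ := ∑ i, ∑ j, ∑ k, ((v i j k - u i j k) + (u i j k - v i j k))

theorem exists_MB : ∃ B : Finset Mov, MB B := by
  classical
  refine ⟨fin_min.toFinset.image (fun f => diff f.1 f.2), ?_, ?_⟩
  · intro m hm
    simp only [Finset.mem_image, Set.Finite.mem_toFinset, Set.mem_ofPred_eq] at hm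
    obtain ⟨f, hf, rfl⟩ := hm
    exact isMove_diff hf.1.1
  · suffices H : ∀ n : ℕ, ∀ u v : Tab, dist u v = n → Same u v → Relation.ReflTransGen (Step (fin_min.toFinset.image (fun f => diff f.1 f.2))) u v from fun u v h => H _ u v rfl h
    intro n
    induction n using Nat.strong_induction_on with
    | _ n ih =>
      intro u v hn huv
      by_cases he : u = v
      · subst he; exact .refl
      -- positive and negative parts
      let f : Tab × Tab := (fun i j k => u i j k - v i j k, fun i j k => v i j k - u i j k)
      have hsub : ∀ i j k, ((v i j k - u i j k : ℕ) : ℤ) - ((u i j k - v i j k : ℕ) : ℤ) = (v i j k : ℤ) - u i j k := by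
        intro i j k; omega
      have hfS : S f := by
        refine ⟨?_, ?_⟩
        · refine same_of_add (m := diff u v) (isMove_diff huv) ?_
          intro i j k; simp only [f, diff]; have := hsub i j k; omega
        · intro hf; apply he; funext i j k
          have : f.1 i j k = f.2 i j k := by rw [hf]
          simp only [f] at this; omega
      obtain ⟨g, hgf, hg⟩ := exists_minimal_le_of_wellFoundedLT S f hfS
      have hg1 : ∀ i j k, g.1 i j k ≤ u i j k - v i j k := fun i j k => hgf.1 i j k
      have hg2 : ∀ i j k, g.2 i j k ≤ v i j k - u i j k := fun i j k => hgf.2 i j k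
      let u' : Tab := fun i j k => u i j k + g.2 i j k - g.1 i j k
      have hu' : ∀ i j k, (u' i j k : ℤ) = (u i j k : ℤ) + diff g.1 g.2 i j k := by
        intro i j k; simp only [u', diff]; have := hg1 i j k; have := hg2 i j k; omega
      have hs : Same u u' := same_of_add (isMove_diff hg.1.1) hu'
      have hlt : dist u' v < dist u v := by
        have hex : ∃ i j k, g.1 i j k ≠ g.2 i j k := by
          by_contra hcon; push Not at hcon
          exact hg.1.2 (by funext i j k; exact hcon i j k)
        obtain ⟨i0, j0, k0, h0⟩ := hex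
        have hpt : ∀ i j k, (v i j k - u' i j k) + (u' i j k - v i j k) ≤ (v i j k - u i j k) + (u i j k - v i j k) := by
          intro i j k; simp only [u']; have := hg1 i j k; have := hg2 i j k; omega
        unfold dist
        apply Finset.sum_lt_sum (fun i _ => Finset.sum_le_sum fun j _ => Finset.sum_le_sum fun k _ => hpt i j k)
        refine ⟨i0, Finset.mem_univ _, ?_⟩
        apply Finset.sum_lt_sum (fun j _ => Finset.sum_le_sum fun k _ => hpt i0 j k)
        refine ⟨j0, Finset.mem_univ _, ?_⟩
        apply Finset.sum_lt_sum (fun k _ => hpt i0 j0 k)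
        refine ⟨k0, Finset.mem_univ _, ?_⟩
        simp only [u']; have := hg1 i0 j0 k0; have := hg2 i0 j0 k0; omega
      have hst : Step (fin_min.toFinset.image (fun f => diff f.1 f.2)) u u' := by
        refine ⟨diff g.1 g.2, ?_, Or.inl hu'⟩
        simp only [Finset.mem_image, Set.Finite.mem_toFinset, Set.mem_ofPred_eq]
        exact ⟨g, hg, rfl⟩
      exact Relation.ReflTransGen.head hst (ih _ (hn ▸ hlt) u' v rfl (hs.symm.trans huv))

theorem exists_min {B : Finset Mov} (h : MB B) : ∃ C ⊆ B, MB C ∧ ∀ D, D ⊂ C → ¬ MB D := by
  classical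
  obtain ⟨C, hC, hmin⟩ := exists_minimal_le_of_wellFoundedLT MB B h
  exact ⟨C, hC, hmin.1, fun D hD hMD => hD.2 (hmin.2 hMD hD.1)⟩

/-! ### lifting paths -/

theorem step_lift {B : Finset Mov} (c : Tab) {w w' : Tab} (h : Step B w w') :
    Step B (w + c) (w' + c) := by
  obtain ⟨m, hm, h | h⟩ := h
  · exact ⟨m, hm, Or.inl fun i j k => by simp only [Pi.add_apply]; push_cast; rw [h i j k]; ring⟩
  · exact ⟨m, hm, Or.inr fun i j k => by simp only [Pi.add_apply]; push_cast; rw [h i j k]; ring⟩

theorem path_lift {B : Finset Mov} (c : Tab) {w w' : Tab} (h : Relation.ReflTransGen (Step B) w w') :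
    Relation.ReflTransGen (Step B) (w + c) (w' + c) := by
  induction h with
  | refl => exact .refl
  | tail _ h ih => exact ih.tail (step_lift c h)

def tot (w : Tab) : ℕ := ∑ i, ∑ j, ∑ k, w i j k

theorem tot_same {u v : Tab} (h : Same u v) : tot u = tot v := by
  unfold tot; simp only [h.1]

/-- the generic exchange lemma: `P`, `Q`, `R` tables of one fiber, `P` and `R` have disjoint supports, `P = c + a`,
`Q = c + b` with `a`, `b` in a fiber of smaller total; if `±(R - P) ∈ B` then exchanging it with `R - Q`
keeps a Markov basis. -/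
theorem exchange {B : Finset Mov} (hB : MB B) {P Q R a b c : Tab} (hPQ : Same P Q) (hPR : Same P R)
    (hP : P = a + c) (hQ : Q = b + c) (hab : Same a b) (htot : tot a < tot P)
    (hdisj : ∀ i j k, P i j k = 0 ∨ R i j k = 0) [DecidableEq Mov] :
    MB (insert (diff Q R) (B.filter (fun m => m ≠ diff P R ∧ m ≠ - diff P R))) := by
  set B' := insert (diff Q R) (B.filter (fun m => m ≠ diff P R ∧ m ≠ - diff P R)) with hB'
  have hmoves : ∀ m ∈ B', IsMove m := by
    intro m hm
    rw [hB', Finset.mem_insert, Finset.mem_filter] at hm
    rcases hm with rfl | ⟨hm, _⟩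
    · exact isMove_diff (hPQ.symm.trans hPR)
    · exact hB.1 m hm
  refine ⟨hmoves, ?_⟩
  -- small paths
  have small : ∀ w w' : Tab, tot w < tot P → Relation.ReflTransGen (Step B) w w' → Relation.ReflTransGen (Step B') w w' := by
    intro w w' hw hp
    have aux : tot w' < tot P ∧ Relation.ReflTransGen (Step B') w w' := by
      induction hp with
      | refl => exact ⟨hw, .refl⟩
      | @tail y z _ h ih =>
        obtain ⟨ih1, ih2⟩ := ih
        have hyz := same_of_step hB.1 h
        refine ⟨by rw [← tot_same hyz]; exact ih1, ih2.tail ?_⟩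
        obtain ⟨m, hm, h⟩ := h
        refine ⟨m, ?_, h⟩
        rw [hB', Finset.mem_insert, Finset.mem_filter]
        refine Or.inr ⟨hm, ?_, ?_⟩
        · -- m = diff P R : then y ≥ P or y ≥ R
          rintro rfl
          rcases h with h | h
          · -- z = y + R - P, so y ≥ P
            have : ∀ i j k, P i j k ≤ y i j k := by
              intro i j k
              have h1 := h i j k; simp only [diff] at h1
              have h2 := hdisj i j k; omega
            have h3 : tot P ≤ tot y := by
              unfold tot; exact Finset.sum_le_sum fun i _ => Finset.sum_le_sum fun j _ => Finset.sum_le_sum fun k _ => this i j k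
            omega
          · have : ∀ i j k, R i j k ≤ y i j k := by
              intro i j k
              have h1 := h i j k; simp only [diff] at h1
              have h2 := hdisj i j k; omega
            have h3 : tot R ≤ tot y := by
              unfold tot; exact Finset.sum_le_sum fun i _ => Finset.sum_le_sum fun j _ => Finset.sum_le_sum fun k _ => this i j k
            have := tot_same hPR
            omega
        · rintro rfl
          rcases h with h | h
          · have : ∀ i j k, R i j k ≤ y i j k := by
              intro i j k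
              have h1 := h i j k; simp only [diff, Pi.neg_apply] at h1
              have h2 := hdisj i j k; omega
            have h3 : tot R ≤ tot y := by
              unfold tot; exact Finset.sum_le_sum fun i _ => Finset.sum_le_sum fun j _ => Finset.sum_le_sum fun k _ => this i j k
            have := tot_same hPR
            omega
          · have : ∀ i j k, P i j k ≤ y i j k := by
              intro i j k
              have h1 := h i j k; simp only [diff, Pi.neg_apply] at h1
              have h2 := hdisj i j k; omega
            have h3 : tot P ≤ tot y := by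
              unfold tot; exact Finset.sum_le_sum fun i _ => Finset.sum_le_sum fun j _ => Finset.sum_le_sum fun k _ => this i j k
            omega
    exact aux.2
  have pab : Relation.ReflTransGen (Step B') a b := small a b htot (hB.2 a b hab)
  have pPQ : Relation.ReflTransGen (Step B') P Q := by rw [hP, hQ]; exact path_lift c pab
  have pQR : Relation.ReflTransGen (Step B') Q R := by
    refine Relation.ReflTransGen.single ⟨diff Q R, Finset.mem_insert_self _ _, Or.inl fun i j k => ?_⟩
    simp only [diff]; ring
  have pPR := pPQ.trans pQR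
  have pRP := path_symm pPR
  -- big move can be simulated anywhere
  have plus : ∀ w w' : Tab, (∀ i j k, (w' i j k : ℤ) = (w i j k : ℤ) + diff P R i j k) →
      Relation.ReflTransGen (Step B') w w' := by
    intro w w' h
    have e1 : w = P + (fun i j k => w i j k - P i j k) := by
      funext i j k
      have h1 := h i j k; simp only [diff] at h1
      simp only [Pi.add_apply]
      have h2 := hdisj i j k; omega
    have e2 : w' = R + (fun i j k => w i j k - P i j k) := by
      funext i j k
      have h1 := h i j k; simp only [diff] at h1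
      simp only [Pi.add_apply]
      have h2 := hdisj i j k; omega
    rw [e1, e2]
    convert path_lift (fun i j k => w i j k - P i j k) pPR using 2
  have stepsim : ∀ w w' : Tab, Step B w w' → Relation.ReflTransGen (Step B') w w' := by
    rintro w w' ⟨m, hm, h⟩
    by_cases h1 : m = diff P R
    · subst h1
      rcases h with h | h
      · exact plus w w' h
      · exact path_symm (plus w' w fun i j k => by rw [h i j k]; ring)
    by_cases h2 : m = - diff P R
    · subst h2
      rcases h with h | h
      · exact path_symm (plus w' w fun i j k => by rw [h i j k]; simp)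
      · exact plus w w' fun i j k => by rw [h i j k]; simp
    exact .single ⟨m, by rw [hB', Finset.mem_insert, Finset.mem_filter]; exact Or.inr ⟨hm, h1, h2⟩, h⟩
  intro u v huv
  have := hB.2 u v huv
  induction this with
  | refl => exact .refl
  | tail _ h ih => 
    rename_i y z hy
    have hy' : Same u y := by
      clear ih h
      induction hy with
      | refl => exact ⟨fun _ _ => rfl, fun _ _ => rfl, fun _ _ => rfl⟩
      | tail _ h2 ih2 => exact ih2.trans (same_of_step hB.1 h2)
    exact (ih hy').trans (stepsim _ _ h)

end Pool.Agent.H16.Markov3
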