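import Pool.Agent.H16.PhiData

set_option autoImplicit false

namespace Pool.Agent.H16.Phi

open Complex ComplexConjugate

abbrev GI := GaussianInt

def FG : Fin 4 → GI := ![⟨6, 0⟩, ⟨3, 0⟩, ⟨0, 2⟩, ⟨2, -2⟩]

def ipow : Fin 4 → GI := ![⟨1, 0⟩, ⟨0, 1⟩, ⟨-1, 0⟩, ⟨0, -1⟩]

def chi (ξ u : Fin 4) : GI := ipow (ξ * u)

def row (ξ c u : Fin 4) : GI := FG (c + u) * chi ξ u

def off : Fin 4 → ℕ := ![0, 3, 5, 6]

def lrow (t : ℕ) (k u : Fin 4) : GI :=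
  if u < k then 0 else ⟨dec t (2 * (off k + u.val)), dec t (2 * (off k + u.val) + 1)⟩

def E (ξ : Fin 4 → Fin 4) (t : ℕ) (u v : Fin 4) : GI :=
  (if u = v then ⟨128600000, 0⟩ else 0)
    - ⟨1000000, 0⟩ * (star (row (ξ 0) 0 u) * row (ξ 0) 0 v + star (row (ξ 1) 1 u) * row (ξ 1) 1 v
      + star (row (ξ 2) 2 u) * row (ξ 2) 2 v + star (row (ξ 3) 3 u) * row (ξ 3) 3 v)
    - (star (lrow t 0 u) * lrow t 0 v + star (lrow t 1 u) * lrow t 1 v
      + star (lrow t 2 u) * lrow t 2 v + star (lrow t 3 u) * lrow t 3 v)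

def w (z : GI) : ℤ := (z.re.natAbs : ℤ) + (z.im.natAbs : ℤ)

def herm (M : Fin 4 → Fin 4 → GI) : Bool :=
  decide (∀ u v : Fin 4, (M v u).re = (M u v).re ∧ (M v u).im = -(M u v).im)

def W (M : Fin 4 → Fin 4 → GI) (u v : Fin 4) : ℤ := if v = u then 0 else w (M u v)

def dom (M : Fin 4 → Fin 4 → GI) : Bool :=
  decide (∀ u : Fin 4, W M u 0 + W M u 1 + W M u 2 + W M u 3 ≤ (M u u).re)

theorem table_ok : ∀ a b c d : Fin 4,
    (herm (E ![a, b, c, d] (tbl.getD (a.val + 4 * b.val + 16 * c.val + 64 * d.val) 0)) &&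
     dom (E ![a, b, c, d] (tbl.getD (a.val + 4 * b.val + 16 * c.val + 64 * d.val) 0))) = true := by
  decide +kernel

end Pool.Agent.H16.Phi
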