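import Pool.Agent.H16.PhiA

set_option autoImplicit false

namespace Pool.Agent.H16.Phi

open Complex ComplexConjugate

/-! ### the dual functional is large on one function of the first class -/

def tab (t : ℕ) (a b : Fin 4) : GI :=
  ⟨dec t (2 * (4 * a.val + b.val)), dec t (2 * (4 * a.val + b.val) + 1)⟩

theorem tab_norm : ∀ a b : Fin 4,
    ((tab t1 a b).re * (tab t1 a b).re + (tab t1 a b).im * (tab t1 a b).im ≤ 1000000) ∧
    ((tab t2 a b).re * (tab t2 a b).re + (tab t2 a b).im * (tab t2 a b).im ≤ 1000000) ∧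
    ((tab t3 a b).re * (tab t3 a b).re + (tab t3 a b).im * (tab t3 a b).im ≤ 1000000) := by
  decide +kernel

def Sval : GI := ∑ g : Fin 4, FG g * ∑ x₁ : Fin 4, ∑ x₂ : Fin 4,
  tab t1 x₂ (g - x₁ - x₂) * tab t2 x₁ (g - x₁ - x₂) * tab t3 x₁ x₂

theorem Sval_re : 181840000000 ≤ Sval.re := by decide +kernel

/-! ### positive semidefiniteness -/

theorem norm_toComplex_le (z : GI) : ‖(z : ℂ)‖ ≤ (w z : ℝ) := by
  have h : (z : ℂ) = (z.re : ℂ) + (z.im : ℂ) * I := GaussianInt.toComplex_def z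
  rw [h]
  refine (norm_add_le _ _).trans ?_
  rw [norm_mul, Complex.norm_I, mul_one, w]
  push_cast
  have e1 : ‖(z.re : ℂ)‖ = |(z.re : ℝ)| := by
    rw [← Complex.ofReal_intCast, Complex.norm_real]; rfl
  have e2 : ‖(z.im : ℂ)‖ = |(z.im : ℝ)| := by
    rw [← Complex.ofReal_intCast, Complex.norm_real]; rfl
  have e3 : ((z.re.natAbs : ℕ) : ℝ) = |(z.re : ℝ)| := by
    rw [← Int.cast_natCast, Int.natCast_natAbs, Int.cast_abs]
  have e4 : ((z.im.natAbs : ℕ) : ℝ) = |(z.im : ℝ)| := by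
    rw [← Int.cast_natCast, Int.natCast_natAbs, Int.cast_abs]
  rw [e1, e2]

theorem w_star (z z' : GI) (h1 : z'.re = z.re) (h2 : z'.im = -z.im) : w z' = w z := by
  unfold w
  rw [h1, h2, Int.natAbs_neg]

theorem psd (M : Fin 4 → Fin 4 → GI) (hh : herm M = true) (hd : dom M = true) (h : Fin 4 → ℂ) :
    0 ≤ (∑ u, ∑ v, conj (h u) * (M u v : ℂ) * h v).re := by
  have hh' := of_decide_eq_true hh
  have hd' := of_decide_eq_true hd
  have key : ∀ u v : Fin 4,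
      (if u = v then ((M u u).re : ℝ) * ‖h u‖ ^ 2 else 0)
        - (W M u v : ℝ) * (‖h u‖ ^ 2 + ‖h v‖ ^ 2) / 2
        ≤ (conj (h u) * (M u v : ℂ) * h v).re := by
    intro u v
    by_cases huv : u = v
    · subst huv
      have : W M u u = 0 := by simp [W]
      rw [this]
      simp only [if_true, Int.cast_zero, zero_mul, zero_div, sub_zero]
      have e : conj (h u) * (M u u : ℂ) * h u = ((‖h u‖ ^ 2 : ℝ) : ℂ) * (M u u : ℂ) := by
        have := Complex.conj_mul' (h u)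
        push_cast
        rw [← this]; ring
      rw [e, Complex.re_ofReal_mul, ← GaussianInt.intCast_re]
      exact le_of_eq (mul_comm _ _)
    · rw [if_neg huv]
      have hW : W M u v = w (M u v) := by
        unfold W; rw [if_neg (fun h => huv h.symm)]
      rw [hW]
      have h1 : |(conj (h u) * (M u v : ℂ) * h v).re| ≤ ‖h u‖ * (w (M u v) : ℝ) * ‖h v‖ := by
        refine (Complex.abs_re_le_norm _).trans ?_
        rw [norm_mul, norm_mul, RCLike.norm_conj]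
        gcongr
        exact norm_toComplex_le _
      have h2 := (abs_le.1 h1).1
      have h3 : (0 : ℝ) ≤ (w (M u v) : ℝ) := by
        have : 0 ≤ w (M u v) := by unfold w; positivity
        exact_mod_cast this
      have h4 : 0 ≤ (w (M u v) : ℝ) * (‖h u‖ - ‖h v‖) ^ 2 := by positivity
      nlinarith
  have hsym : ∀ u v : Fin 4, (W M u v : ℝ) = (W M v u : ℝ) := by
    intro u v
    unfold W
    by_cases huv : u = v
    · subst huv; rfl
    · rw [if_neg (fun h => huv h.symm), if_neg huv]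
      have := w_star (M u v) (M v u) (hh' u v).1 (hh' u v).2
      rw [this]
  have hdom : ∀ u : Fin 4, (W M u 0 : ℝ) + W M u 1 + W M u 2 + W M u 3 ≤ ((M u u).re : ℝ) := by
    intro u; exact_mod_cast hd' u
  rw [Complex.re_sum]
  simp_rw [Complex.re_sum]
  refine le_trans ?_ (Finset.sum_le_sum fun u _ => Finset.sum_le_sum fun v _ => key u v)
  simp only [Fin.sum_univ_four]
  have d0 := hdom 0
  have d1 := hdom 1
  have d2 := hdom 2
  have d3 := hdom 3
  have s01 := hsym 0 1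
  have s02 := hsym 0 2
  have s03 := hsym 0 3
  have s12 := hsym 1 2
  have s13 := hsym 1 3
  have s23 := hsym 2 3
  have z0 : (W M 0 0 : ℝ) = 0 := by simp [W]
  have z1 : (W M 1 1 : ℝ) = 0 := by simp [W]
  have z2 : (W M 2 2 : ℝ) = 0 := by simp [W]
  have z3 : (W M 3 3 : ℝ) = 0 := by simp [W]
  have n0 : 0 ≤ ‖h 0‖ ^ 2 := by positivity
  have n1 : 0 ≤ ‖h 1‖ ^ 2 := by positivity
  have n2 : 0 ≤ ‖h 2‖ ^ 2 := by positivity
  have n3 : 0 ≤ ‖h 3‖ ^ 2 := by positivity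
  have p0 := mul_nonneg (sub_nonneg.2 d0) n0
  have p1 := mul_nonneg (sub_nonneg.2 d1) n1
  have p2 := mul_nonneg (sub_nonneg.2 d2) n2
  have p3 := mul_nonneg (sub_nonneg.2 d3) n3
  simp only [if_true, show ¬ ((0 : Fin 4) = 1) by decide, show ¬ ((0 : Fin 4) = 2) by decide,
    show ¬ ((0 : Fin 4) = 3) by decide, show ¬ ((1 : Fin 4) = 0) by decide,
    show ¬ ((1 : Fin 4) = 2) by decide, show ¬ ((1 : Fin 4) = 3) by decide,
    show ¬ ((2 : Fin 4) = 0) by decide, show ¬ ((2 : Fin 4) = 1) by decide,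
    show ¬ ((2 : Fin 4) = 3) by decide, show ¬ ((3 : Fin 4) = 0) by decide,
    show ¬ ((3 : Fin 4) = 1) by decide, show ¬ ((3 : Fin 4) = 2) by decide, if_false]
  rw [z0] at p0 ⊢
  rw [z1] at p1 ⊢
  rw [z2] at p2 ⊢
  rw [z3] at p3 ⊢
  rw [← s01] at p1 ⊢
  rw [← s02, ← s12] at p2 ⊢
  rw [← s03, ← s13, ← s23] at p3 ⊢
  linarith

theorem rowsq (r : Fin 4 → GI) (h : Fin 4 → ℂ) :
    ((‖∑ u, (r u : ℂ) * h u‖ ^ 2 : ℝ) : ℂ) =
      ∑ u, ∑ v, conj (h u) * ((star (r u) * r v : GI) : ℂ) * h v := by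
  push_cast
  rw [← Complex.conj_mul', map_sum, Finset.sum_mul]
  refine Finset.sum_congr rfl fun u _ => ?_
  rw [Finset.mul_sum]
  refine Finset.sum_congr rfl fun v _ => ?_
  rw [map_mul, ← GaussianInt.toComplex_star, GaussianInt.toComplex_mul]
  ring

theorem hsq (h : Fin 4 → ℂ) (K : ℤ) :
    ((K * ∑ u, ‖h u‖ ^ 2 : ℝ) : ℂ) =
      ∑ u, ∑ v, conj (h u) * ((if u = v then ⟨K, 0⟩ else 0 : GI) : ℂ) * h v := by
  push_cast
  rw [Finset.mul_sum]
  refine Finset.sum_congr rfl fun u _ => ?_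
  rw [Finset.sum_eq_single u]
  · rw [if_pos rfl, GaussianInt.toComplex_def', ← Complex.conj_mul']
    simp
    ring
  · intro v _ hv
    rw [if_neg (Ne.symm hv)]
    simp
  · intro hu; exact absurd (Finset.mem_univ u) hu

theorem quad (ξ : Fin 4 → Fin 4) (h : Fin 4 → ℂ) :
    ∑ c, ‖∑ u, (row (ξ c) c u : ℂ) * h u‖ ^ 2 ≤ 1286 / 10 * ∑ u, ‖h u‖ ^ 2 := by
  have hξ : ξ = ![ξ 0, ξ 1, ξ 2, ξ 3] := by
    ext i; fin_cases i <;> rfl
  have ht := table_ok (ξ 0) (ξ 1) (ξ 2) (ξ 3)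
  rw [← hξ] at ht
  set t := tbl.getD ((ξ 0).val + 4 * (ξ 1).val + 16 * (ξ 2).val + 64 * (ξ 3).val) 0
  rw [Bool.and_eq_true] at ht
  have hp := psd (E ξ t) ht.1 ht.2 h
  have hid : ∑ u, ∑ v, conj (h u) * (E ξ t u v : ℂ) * h v =
      (((128600000 : ℤ) * ∑ u, ‖h u‖ ^ 2
        - 1000000 * (‖∑ u, (row (ξ 0) 0 u : ℂ) * h u‖ ^ 2 + ‖∑ u, (row (ξ 1) 1 u : ℂ) * h u‖ ^ 2
          + ‖∑ u, (row (ξ 2) 2 u : ℂ) * h u‖ ^ 2 + ‖∑ u, (row (ξ 3) 3 u : ℂ) * h u‖ ^ 2)
        - (‖∑ u, (lrow t 0 u : ℂ) * h u‖ ^ 2 + ‖∑ u, (lrow t 1 u : ℂ) * h u‖ ^ 2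
          + ‖∑ u, (lrow t 2 u : ℂ) * h u‖ ^ 2 + ‖∑ u, (lrow t 3 u : ℂ) * h u‖ ^ 2) : ℝ) : ℂ) := by
    have e0 := hsq h 128600000
    have e1 := rowsq (row (ξ 0) 0) h
    have e2 := rowsq (row (ξ 1) 1) h
    have e3 := rowsq (row (ξ 2) 2) h
    have e4 := rowsq (row (ξ 3) 3) h
    have f1 := rowsq (lrow t 0) h
    have f2 := rowsq (lrow t 1) h
    have f3 := rowsq (lrow t 2) h
    have f4 := rowsq (lrow t 3) h
    rw [Complex.ofReal_sub, Complex.ofReal_sub, e0, Complex.ofReal_mul, Complex.ofReal_add,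
      Complex.ofReal_add, Complex.ofReal_add, Complex.ofReal_add, Complex.ofReal_add,
      Complex.ofReal_add, e1, e2, e3, e4, f1, f2, f3, f4]
    rw [← Finset.sum_add_distrib, ← Finset.sum_add_distrib, ← Finset.sum_add_distrib,
      ← Finset.sum_add_distrib, ← Finset.sum_add_distrib, ← Finset.sum_add_distrib,
      Finset.mul_sum, ← Finset.sum_sub_distrib, ← Finset.sum_sub_distrib]
    refine Finset.sum_congr rfl fun u _ => ?_
    rw [← Finset.sum_add_distrib, ← Finset.sum_add_distrib, ← Finset.sum_add_distrib,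
      ← Finset.sum_add_distrib, ← Finset.sum_add_distrib, ← Finset.sum_add_distrib,
      Finset.mul_sum, ← Finset.sum_sub_distrib, ← Finset.sum_sub_distrib]
    refine Finset.sum_congr rfl fun v _ => ?_
    unfold E
    simp only [GaussianInt.toComplex_sub, GaussianInt.toComplex_mul, GaussianInt.toComplex_add]
    have : ((⟨1000000, 0⟩ : GI) : ℂ) = ((1000000 : ℝ) : ℂ) := by
      rw [GaussianInt.toComplex_def']; norm_num
    rw [this]
    ring
  rw [hid, Complex.ofReal_re] at hp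
  have q1 : 0 ≤ ‖∑ u, (lrow t 0 u : ℂ) * h u‖ ^ 2 := by positivity
  have q2 : 0 ≤ ‖∑ u, (lrow t 1 u : ℂ) * h u‖ ^ 2 := by positivity
  have q3 : 0 ≤ ‖∑ u, (lrow t 2 u : ℂ) * h u‖ ^ 2 := by positivity
  have q4 : 0 ≤ ‖∑ u, (lrow t 3 u : ℂ) * h u‖ ^ 2 := by positivity
  rw [Fin.sum_univ_four (fun c => ‖∑ u, (row (ξ c) c u : ℂ) * h u‖ ^ 2)]
  push_cast at hp
  linarith

end Pool.Agent.H16.Phi
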