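import Pool.Agent.H16.PhiB

set_option autoImplicit false

namespace Pool.Agent.H16.Phi

open Complex ComplexConjugate

theorem orth3 : ∀ u x y : Fin 4,
    (∑ ξ : Fin 4, chi ξ u * (star (chi ξ x) * star (chi ξ y)) : GI) =
      if u = x + y then 4 else 0 := by
  decide +kernel

theorem orth2 : ∀ x y : Fin 4,
    (∑ ξ : Fin 4, chi ξ x * star (chi ξ y) : GI) = if x = y then 4 else 0 := by
  decide +kernel

theorem orth3C (u x y : Fin 4) :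
    (∑ ξ : Fin 4, (chi ξ u : ℂ) * (conj (chi ξ x : ℂ) * conj (chi ξ y : ℂ))) =
      if u = x + y then 4 else 0 := by
  have h := congrArg GaussianInt.toComplex (orth3 u x y)
  rw [map_sum] at h
  simp only [map_mul, GaussianInt.toComplex_star] at h
  rw [h]
  split_ifs
  · exact map_ofNat _ _
  · exact map_zero _

theorem orth2C (x y : Fin 4) :
    (∑ ξ : Fin 4, (chi ξ x : ℂ) * conj (chi ξ y : ℂ)) = if x = y then 4 else 0 := by
  have h := congrArg GaussianInt.toComplex (orth2 x y)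
  rw [map_sum] at h
  simp only [map_mul, GaussianInt.toComplex_star] at h
  rw [h]
  split_ifs
  · exact map_ofNat _ _
  · exact map_zero _

theorem parseval (a : Fin 4 → ℂ) :
    ∑ ξ, ‖∑ x, conj (chi ξ x : ℂ) * a x‖ ^ 2 = 4 * ∑ x, ‖a x‖ ^ 2 := by
  have : ((∑ ξ, ‖∑ x, conj (chi ξ x : ℂ) * a x‖ ^ 2 : ℝ) : ℂ) = ((4 * ∑ x, ‖a x‖ ^ 2 : ℝ) : ℂ) := by
    push_cast
    simp_rw [← Complex.conj_mul', map_sum, map_mul, Complex.conj_conj, Finset.sum_mul_sum]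
    rw [Finset.sum_comm, Finset.mul_sum]
    refine Finset.sum_congr rfl fun x _ => ?_
    rw [Finset.sum_comm]
    have h : ∀ y : Fin 4, ∑ ξ : Fin 4, (chi ξ x : ℂ) * conj (a x) * (conj (chi ξ y : ℂ) * a y) =
        (if x = y then 4 else 0) * (conj (a x) * a y) := by
      intro y
      rw [← orth2C, Finset.sum_mul]
      refine Finset.sum_congr rfl fun ξ _ => ?_
      ring
    simp_rw [h]
    simp
  exact_mod_cast this

theorem fourier (g a b : Fin 4 → ℂ) :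
    4 * ∑ x, ∑ y, g (x + y) * a x * b y =
      ∑ ξ, (∑ u, (chi ξ u : ℂ) * g u) * ((∑ x, conj (chi ξ x : ℂ) * a x) *
        (∑ y, conj (chi ξ y : ℂ) * b y)) := by
  have e : ∀ ξ : Fin 4, (∑ u, (chi ξ u : ℂ) * g u) * ((∑ x, conj (chi ξ x : ℂ) * a x) *
        (∑ y, conj (chi ξ y : ℂ) * b y)) =
      ∑ x, ∑ y, ∑ u, (g u * a x * b y) *
        ((chi ξ u : ℂ) * (conj (chi ξ x : ℂ) * conj (chi ξ y : ℂ))) := by
    intro ξ
    rw [Finset.sum_mul_sum, Finset.mul_sum]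
    refine Finset.sum_congr rfl fun x _ => ?_
    rw [Finset.mul_sum]
    refine Finset.sum_congr rfl fun y _ => ?_
    rw [Finset.sum_mul]
    refine Finset.sum_congr rfl fun u _ => ?_
    ring
  simp_rw [e]
  symm
  rw [Finset.sum_comm, Finset.mul_sum]
  refine Finset.sum_congr rfl fun x _ => ?_
  rw [Finset.sum_comm, Finset.mul_sum]
  refine Finset.sum_congr rfl fun y _ => ?_
  rw [Finset.sum_comm]
  simp_rw [← Finset.mul_sum, orth3C]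
  rw [Finset.sum_eq_single (x + y)]
  · rw [if_pos rfl]
    ring
  · intro u _ hu
    rw [if_neg hu, mul_zero]
  · intro h
    exact absurd (Finset.mem_univ _) h

theorem bilin (g a b : Fin 4 → ℂ) (ha : ∀ x, ‖a x‖ ≤ 1) (hb : ∀ x, ‖b x‖ ≤ 1) :
    ∃ ξ : Fin 4, ‖∑ x, ∑ y, g (x + y) * a x * b y‖ ≤ 4 * ‖∑ u, (chi ξ u : ℂ) * g u‖ := by
  obtain ⟨ξ, -, hξ⟩ := Finset.exists_max_image (Finset.univ : Finset (Fin 4))
    (fun ξ => ‖∑ u, (chi ξ u : ℂ) * g u‖) ⟨0, Finset.mem_univ _⟩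
  refine ⟨ξ, ?_⟩
  have hf := fourier g a b
  have hA : ∑ ξ, ‖∑ x, conj (chi ξ x : ℂ) * a x‖ ^ 2 ≤ 16 := by
    rw [parseval]
    have : ∑ x, ‖a x‖ ^ 2 ≤ ∑ _x : Fin 4, (1 : ℝ) :=
      Finset.sum_le_sum fun x _ => pow_le_one₀ (norm_nonneg _) (ha x)
    simp at this
    linarith
  have hB : ∑ ξ, ‖∑ x, conj (chi ξ x : ℂ) * b x‖ ^ 2 ≤ 16 := by
    rw [parseval]
    have : ∑ x, ‖b x‖ ^ 2 ≤ ∑ _x : Fin 4, (1 : ℝ) :=
      Finset.sum_le_sum fun x _ => pow_le_one₀ (norm_nonneg _) (hb x)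
    simp at this
    linarith
  have h1 : ‖4 * ∑ x, ∑ y, g (x + y) * a x * b y‖ ≤ 16 * ‖∑ u, (chi ξ u : ℂ) * g u‖ := by
    rw [hf]
    refine (norm_sum_le _ _).trans ?_
    have h2 : ∀ η : Fin 4, ‖(∑ u, (chi η u : ℂ) * g u) * ((∑ x, conj (chi η x : ℂ) * a x) *
        (∑ y, conj (chi η y : ℂ) * b y))‖ ≤ ‖∑ u, (chi ξ u : ℂ) * g u‖ *
          ((‖∑ x, conj (chi η x : ℂ) * a x‖ ^ 2 + ‖∑ x, conj (chi η x : ℂ) * b x‖ ^ 2) / 2) := by
      intro η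
      rw [norm_mul, norm_mul]
      refine mul_le_mul (hξ η (Finset.mem_univ _)) ?_ (by positivity) (norm_nonneg _)
      nlinarith [sq_nonneg (‖∑ x, conj (chi η x : ℂ) * a x‖ - ‖∑ x, conj (chi η x : ℂ) * b x‖)]
    refine (Finset.sum_le_sum fun η _ => h2 η).trans ?_
    rw [← Finset.mul_sum, ← Finset.sum_div, Finset.sum_add_distrib, mul_comm]
    refine mul_le_mul_of_nonneg_right ?_ (norm_nonneg _)
    linarith
  rw [norm_mul] at h1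
  have : ‖(4 : ℂ)‖ = 4 := by simp
  rw [this] at h1
  linarith

/-- the dual functional -/
noncomputable def ell (φ : Fin 4 → ℂ) : ℝ := (∑ g, (FG g : ℂ) * φ g).re

theorem ell_linear : IsLinearMap ℝ ell where
  map_add x y := by
    unfold ell
    rw [← Complex.add_re, ← Finset.sum_add_distrib]
    congr 1
    refine Finset.sum_congr rfl fun g _ => ?_
    rw [Pi.add_apply, mul_add]
  map_smul c x := by
    unfold ell
    rw [smul_eq_mul, ← Complex.re_ofReal_mul, Finset.mul_sum]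
    congr 1
    refine Finset.sum_congr rfl fun g _ => ?_
    rw [Pi.smul_apply, Complex.real_smul]
    ring

theorem ell_prime (f₁ f₂ : Fin 4 → Fin 4 → ℂ) (h : Fin 4 → ℂ) (h1 : ∀ a b, ‖f₁ a b‖ ≤ 1)
    (h2 : ∀ a b, ‖f₂ a b‖ ≤ 1) (hh : ∀ a, ‖h a‖ ≤ 1) :
    ell (fun g => ((Fintype.card (Fin 4) : ℂ) ^ 2)⁻¹ *
      ∑ x₁ : Fin 4, ∑ x₂ : Fin 4, f₁ x₂ (g - x₁ - x₂) * f₂ x₁ (g - x₁ - x₂) * h (x₁ + x₂))
      ≤ 1135 / 100 := by
  have key : (∑ g, (FG g : ℂ) * (((Fintype.card (Fin 4) : ℂ) ^ 2)⁻¹ *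
      ∑ x₁ : Fin 4, ∑ x₂ : Fin 4, f₁ x₂ (g - x₁ - x₂) * f₂ x₁ (g - x₁ - x₂) * h (x₁ + x₂))) =
      (16 : ℂ)⁻¹ * ∑ c, ∑ x₁, ∑ x₂, ((FG (c + (x₁ + x₂)) : ℂ) * h (x₁ + x₂)) * f₂ x₁ c * f₁ x₂ c := by
    have e16 : ((Fintype.card (Fin 4) : ℂ) ^ 2)⁻¹ = (16 : ℂ)⁻¹ := by simp; norm_num
    rw [e16]
    have : ∀ g : Fin 4, (FG g : ℂ) * ((16 : ℂ)⁻¹ *
        ∑ x₁ : Fin 4, ∑ x₂ : Fin 4, f₁ x₂ (g - x₁ - x₂) * f₂ x₁ (g - x₁ - x₂) * h (x₁ + x₂)) =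
        (16 : ℂ)⁻¹ * ∑ x₁ : Fin 4, ∑ x₂ : Fin 4,
          (FG g : ℂ) * h (x₁ + x₂) * f₂ x₁ (g - x₁ - x₂) * f₁ x₂ (g - x₁ - x₂) := by
      intro g
      rw [mul_left_comm, Finset.mul_sum]
      congr 1
      refine Finset.sum_congr rfl fun x₁ _ => ?_
      rw [Finset.mul_sum]
      refine Finset.sum_congr rfl fun x₂ _ => ?_
      ring
    simp_rw [this]
    rw [← Finset.mul_sum]
    congr 1
    rw [Finset.sum_comm]
    rw [Finset.sum_comm (s := (Finset.univ : Finset (Fin 4))) (t := (Finset.univ : Finset (Fin 4)))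
      (f := fun c x₁ => ∑ x₂, ((FG (c + (x₁ + x₂)) : ℂ) * h (x₁ + x₂)) * f₂ x₁ c * f₁ x₂ c)]
    refine Finset.sum_congr rfl fun x₁ _ => ?_
    rw [Finset.sum_comm]
    rw [Finset.sum_comm (s := (Finset.univ : Finset (Fin 4))) (t := (Finset.univ : Finset (Fin 4)))
      (f := fun c x₂ => ((FG (c + (x₁ + x₂)) : ℂ) * h (x₁ + x₂)) * f₂ x₁ c * f₁ x₂ c)]
    refine Finset.sum_congr rfl fun x₂ _ => ?_
    symm
    refine Fintype.sum_equiv (Equiv.addRight (x₁ + x₂)) _ _ fun c => ?_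
    simp only [Equiv.coe_addRight]
    have : c + (x₁ + x₂) - x₁ - x₂ = c := by abel
    rw [this]
  unfold ell
  rw [key]
  refine (Complex.re_le_norm _).trans ?_
  rw [norm_mul]
  have hb : ∀ c : Fin 4, ∃ ξ : Fin 4,
      ‖∑ x₁, ∑ x₂, ((FG (c + (x₁ + x₂)) : ℂ) * h (x₁ + x₂)) * f₂ x₁ c * f₁ x₂ c‖ ≤
        4 * ‖∑ u, (chi ξ u : ℂ) * ((FG (c + u) : ℂ) * h u)‖ := fun c =>
    bilin (fun u => (FG (c + u) : ℂ) * h u) (fun x => f₂ x c) (fun x => f₁ x c)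
      (fun x => h2 x c) (fun x => h1 x c)
  choose ξ hξ using hb
  have hq := quad ξ h
  have hrow : ∀ c : Fin 4, ∑ u, (chi (ξ c) u : ℂ) * ((FG (c + u) : ℂ) * h u) =
      ∑ u, (row (ξ c) c u : ℂ) * h u := by
    intro c
    refine Finset.sum_congr rfl fun u _ => ?_
    rw [row, GaussianInt.toComplex_mul]
    ring
  have hh2 : ∑ u, ‖h u‖ ^ 2 ≤ 4 := by
    have : ∑ x, ‖h x‖ ^ 2 ≤ ∑ _x : Fin 4, (1 : ℝ) :=
      Finset.sum_le_sum fun x _ => pow_le_one₀ (norm_nonneg _) (hh x)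
    simpa using this
  have hcs := sq_sum_le_card_mul_sum_sq (s := (Finset.univ : Finset (Fin 4)))
    (f := fun c => ‖∑ u, (row (ξ c) c u : ℂ) * h u‖)
  have hcard : ((Finset.univ : Finset (Fin 4)).card : ℝ) = 4 := by simp
  rw [hcard] at hcs
  have hsum : ∑ c, ‖∑ u, (row (ξ c) c u : ℂ) * h u‖ ≤ 454 / 10 := by
    have h0 : 0 ≤ ∑ c, ‖∑ u, (row (ξ c) c u : ℂ) * h u‖ := Finset.sum_nonneg fun _ _ => norm_nonneg _
    nlinarith
  have htot : ‖∑ c, ∑ x₁, ∑ x₂, ((FG (c + (x₁ + x₂)) : ℂ) * h (x₁ + x₂)) * f₂ x₁ c * f₁ x₂ c‖ ≤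
      4 * ∑ c, ‖∑ u, (row (ξ c) c u : ℂ) * h u‖ := by
    refine (norm_sum_le _ _).trans ?_
    rw [Finset.mul_sum]
    refine Finset.sum_le_sum fun c _ => ?_
    rw [← hrow c]
    exact hξ c
  have e : ‖((16 : ℂ)⁻¹)‖ = 1 / 16 := by simp
  rw [e]
  linarith

theorem ell_big :
    1136 / 100 ≤ ell (fun g => ((Fintype.card (Fin 4) : ℂ) ^ 2)⁻¹ *
      ∑ x₁ : Fin 4, ∑ x₂ : Fin 4, ((tab t1 x₂ (g - x₁ - x₂) : ℂ) / 1000) *
        ((tab t2 x₁ (g - x₁ - x₂) : ℂ) / 1000) * ((tab t3 x₁ x₂ : ℂ) / 1000)) := by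
  have key : (∑ g, (FG g : ℂ) * (((Fintype.card (Fin 4) : ℂ) ^ 2)⁻¹ *
      ∑ x₁ : Fin 4, ∑ x₂ : Fin 4, ((tab t1 x₂ (g - x₁ - x₂) : ℂ) / 1000) *
        ((tab t2 x₁ (g - x₁ - x₂) : ℂ) / 1000) * ((tab t3 x₁ x₂ : ℂ) / 1000))) =
      (((1 / 16000000000 : ℝ)) : ℂ) * (Sval : ℂ) := by
    unfold Sval
    rw [map_sum, Finset.mul_sum]
    refine Finset.sum_congr rfl fun g _ => ?_
    rw [GaussianInt.toComplex_mul, map_sum]
    have e16 : ((Fintype.card (Fin 4) : ℂ) ^ 2)⁻¹ = (16 : ℂ)⁻¹ := by simp; norm_num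
    rw [e16]
    have : ∑ x₁ : Fin 4, ∑ x₂ : Fin 4, ((tab t1 x₂ (g - x₁ - x₂) : ℂ) / 1000) *
        ((tab t2 x₁ (g - x₁ - x₂) : ℂ) / 1000) * ((tab t3 x₁ x₂ : ℂ) / 1000) =
        (1 / 1000000000 : ℂ) * ∑ x₁ : Fin 4, GaussianInt.toComplex (∑ x₂ : Fin 4,
          tab t1 x₂ (g - x₁ - x₂) * tab t2 x₁ (g - x₁ - x₂) * tab t3 x₁ x₂) := by
      rw [Finset.mul_sum]
      refine Finset.sum_congr rfl fun x₁ _ => ?_
      rw [map_sum, Finset.mul_sum]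
      refine Finset.sum_congr rfl fun x₂ _ => ?_
      rw [GaussianInt.toComplex_mul, GaussianInt.toComplex_mul]
      ring
    rw [this]
    push_cast
    ring
  unfold ell
  rw [key, Complex.re_ofReal_mul, ← GaussianInt.intCast_re]
  have : (181840000000 : ℝ) ≤ (Sval.re : ℝ) := by exact_mod_cast Sval_re
  linarith

theorem tab_le (t : ℕ) (a b : Fin 4)
    (h : (tab t a b).re * (tab t a b).re + (tab t a b).im * (tab t a b).im ≤ 1000000) :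
    ‖(tab t a b : ℂ) / 1000‖ ≤ 1 := by
  rw [norm_div]
  have e : ‖(1000 : ℂ)‖ = 1000 := by simp
  rw [e, div_le_one (by norm_num)]
  have h1 : ‖(tab t a b : ℂ)‖ ^ 2 ≤ 1000 ^ 2 := by
    rw [Complex.sq_norm, Complex.normSq_apply, ← GaussianInt.intCast_re, ← GaussianInt.intCast_im]
    have : (((tab t a b).re * (tab t a b).re + (tab t a b).im * (tab t a b).im : ℤ) : ℝ) ≤ 1000000 := by
      exact_mod_cast h
    push_cast at this
    linarith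
  exact le_of_sq_le_sq h1 (by norm_num)

end Pool.Agent.H16.Phi
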